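import Mathlib

/-!
Abstract comparison of two Koszul complexes along three extensions.
-/

set_option autoImplicit false

namespace Pool.Agent.H141Z.Gor

universe u

variable {B : Type u} [CommRing B] {H : Type u} [AddCommGroup H] [Module B H]

/-- An extension `0 → H → H' → H → 0` of `B`-modules with an additive splitting `s`; `E j` measures
the failure of `s` to commute with `a j`, and `Φ k` acts on `H'` through `W k`. -/
def Good (a Φ : Fin 3 → B) (E W : Fin 3 → H → H) : Prop :=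
  ∃ (H' : Type u) (_ : AddCommGroup H') (_ : Module B H') (i : H →ₗ[B] H') (p : H' →ₗ[B] H)
    (s : H →+ H'), Function.Injective i ∧ (∀ h, p (s h) = h) ∧
      (∀ j h, a j • s h = s (a j • h) + i (E j h)) ∧ (∀ k h', Φ k • h' = i (W k (p h')))

/-- cross product -/
def cr (x y : Fin 3 → B) : Fin 3 → B :=
  ![x 1 * y 2 - x 2 * y 1, x 2 * y 0 - x 0 * y 2, x 0 * y 1 - x 1 * y 0]

/-- pairing of a vector of scalars with a vector of elements -/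
def pr (x : Fin 3 → B) (c : Fin 3 → H) : H := x 0 • c 0 + x 1 • c 1 + x 2 • c 2

/-- curl -/
def cu (E : Fin 3 → H → H) (c : Fin 3 → H) : Fin 3 → H :=
  ![E 1 (c 2) - E 2 (c 1), E 2 (c 0) - E 0 (c 2), E 0 (c 1) - E 1 (c 0)]

variable {a Φ : Fin 3 → B} {Δ : Fin 3 → Fin 3 → B}

lemma step0 {E W : Fin 3 → H → H} (g : Good a Φ E W)
    (hΔ : ∀ k, Φ k = Δ k 0 * a 0 + Δ k 1 * a 1 + Δ k 2 * a 2) (c : H) (hc : ∀ j, a j • c = 0) :
    (∀ k, pr (Δ k) (fun j => E j c) = W k c) ∧ ∀ j m, a j • E m c = a m • E j c := by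
  obtain ⟨H', _, _, i, p, s, hi, hp, ha, hΦ⟩ := g
  have h1 : ∀ j, i (E j c) = a j • s c := fun j => by rw [ha, hc, map_zero, zero_add]
  constructor
  · intro k
    apply hi
    have := hΦ k (s c)
    rw [hp] at this
    rw [← this, hΔ]
    simp only [pr, map_add, map_smul, h1]
    module
  · intro j m
    apply hi
    simp only [map_smul, h1]
    module

lemma step1 {E W : Fin 3 → H → H} (g : Good a Φ E W)
    (hΔ : ∀ k, Φ k = Δ k 0 * a 0 + Δ k 1 * a 1 + Δ k 2 * a 2) (c : Fin 3 → H)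
    (hc : ∀ j m, a j • c m = a m • c j) :
    (∀ k l, pr (cr (Δ k) (Δ l)) (cu E c) = W k (pr (Δ l) c) - W l (pr (Δ k) c)) ∧
      pr a (cu E c) = 0 := by
  obtain ⟨H', _, _, i, p, s, hi, hp, ha, hΦ⟩ := g
  have h1 : ∀ j m, i (E j (c m) - E m (c j)) = a j • s (c m) - a m • s (c j) := fun j m => by
    rw [ha, ha, hc j m, map_sub]; abel
  have h2 : ∀ k l, i (W k (pr (Δ l) c)) = Φ k • pr (Δ l) (fun m => s (c m)) := fun k l => by
    rw [hΦ]; simp [pr, hp]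
  constructor
  · intro k l
    apply hi
    rw [map_sub, h2, h2, hΔ, hΔ]
    simp only [pr, cr, cu, map_add, map_smul, h1, Matrix.cons_val_zero, Matrix.cons_val_one,
      Matrix.cons_val]
    module
  · apply hi
    simp only [pr, cu, map_add, map_smul, h1, Matrix.cons_val_zero, Matrix.cons_val_one,
      Matrix.cons_val, map_zero]
    module

lemma step2 {E W : Fin 3 → H → H} (g : Good a Φ E W)
    (hΔ : ∀ k, Φ k = Δ k 0 * a 0 + Δ k 1 * a 1 + Δ k 2 * a 2) (c : Fin 3 → H)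
    (hc : pr a c = 0) (y : Fin 3 → H) (hy : E 0 (c 0) + E 1 (c 1) + E 2 (c 2) = pr a y)
    (h0 : ∀ k (h : H), Φ k • h = 0) :
    W 0 (pr (cr (Δ 1) (Δ 2)) c) + W 1 (pr (cr (Δ 2) (Δ 0)) c) + W 2 (pr (cr (Δ 0) (Δ 1)) c)
      = 0 := by
  obtain ⟨H', _, _, i, p, s, hi, hp, ha, hΦ⟩ := g
  have h1 : i (pr a y) = pr a (fun m => s (c m)) := by
    have : s (pr a c) = 0 := by rw [hc, map_zero]
    simp only [pr, map_add] at this
    rw [← hy]
    simp only [pr, ha, map_add]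
    rw [← zero_add (i (E 0 (c 0)) + i (E 1 (c 1)) + i (E 2 (c 2))), ← this]
    abel
  have h2 : ∀ k (x : Fin 3 → B), i (W k (pr x c)) = Φ k • pr x (fun m => s (c m)) := fun k x => by
    rw [hΦ]; simp [pr, hp]
  set d : B := Δ 0 0 * cr (Δ 1) (Δ 2) 0 + Δ 0 1 * cr (Δ 1) (Δ 2) 1 + Δ 0 2 * cr (Δ 1) (Δ 2) 2
    with hd
  have h3 : d • pr a y = 0 := by
    have : d • pr a y = Φ 0 • pr (cr (Δ 1) (Δ 2)) y + Φ 1 • pr (cr (Δ 2) (Δ 0)) y +
        Φ 2 • pr (cr (Δ 0) (Δ 1)) y := by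
      rw [hΔ, hΔ, hΔ, hd]
      simp only [pr, cr, Matrix.cons_val_zero, Matrix.cons_val_one, Matrix.cons_val]
      module
    rw [this, h0, h0, h0]; simp
  apply hi
  rw [map_add, map_add, h2, h2, h2, ← h3, map_smul, h1, hΔ, hΔ, hΔ, hd]
  simp only [pr, cr, Matrix.cons_val_zero, Matrix.cons_val_one, Matrix.cons_val]
  module

theorem three_steps {E₁ W₁ E₂ W₂ E₃ W₃ : Fin 3 → H → H} (g₁ : Good a Φ E₁ W₁)
    (g₂ : Good a Φ E₂ W₂) (g₃ : Good a Φ E₃ W₃)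
    (hΔ : ∀ k, Φ k = Δ k 0 * a 0 + Δ k 1 * a 1 + Δ k 2 * a 2) (c : H) (hc : ∀ j, a j • c = 0)
    (y : Fin 3 → H)
    (hy : E₃ 0 (E₂ 1 (E₁ 2 c) - E₂ 2 (E₁ 1 c)) + E₃ 1 (E₂ 2 (E₁ 0 c) - E₂ 0 (E₁ 2 c)) +
      E₃ 2 (E₂ 0 (E₁ 1 c) - E₂ 1 (E₁ 0 c)) = pr a y)
    (h0 : ∀ k (h : H), Φ k • h = 0) :
    W₃ 0 (W₂ 1 (W₁ 2 c) - W₂ 2 (W₁ 1 c)) + W₃ 1 (W₂ 2 (W₁ 0 c) - W₂ 0 (W₁ 2 c)) +
      W₃ 2 (W₂ 0 (W₁ 1 c) - W₂ 1 (W₁ 0 c)) = 0 := by
  obtain ⟨s0, t0⟩ := step0 g₁ hΔ c hc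
  obtain ⟨s1, t1⟩ := step1 g₂ hΔ (fun j => E₁ j c) t0
  have := step2 g₃ hΔ (cu E₂ fun j => E₁ j c) t1 y (by simpa [cu] using hy) h0
  rw [s1, s1, s1, s0, s0, s0] at this
  exact this

end Pool.Agent.H141Z.Gor
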