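import Mathlib
import Pool.Agent.H141Z.Gor.Koszul

/-!
If `A = K[x,y,z]/I` is finite dimensional with `x, y, z` nilpotent, `δ₁, δ₂, δ₃` are derivations
of `K` acting on coefficients and `F₁, F₂, F₃ ∈ I`, then `det (δᵢ Fₖ) ∈ I`.
-/

set_option autoImplicit false

open TensorProduct MvPolynomial

namespace Pool.Agent.H141Z.Gor

universe u

/-- polynomials in three variables -/
abbrev P (K : Type u) [CommRing K] := MvPolynomial (Fin 3) K

section act

variable {K : Type u} [Field K] {A : Type u} [CommRing A] [Algebra K A]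

/-- postcomposition -/
noncomputable def lft (A : Type u) [CommRing A] [Algebra K A] (N : Type u) [AddCommGroup N]
    [Module K N] : Module.End K N →ₐ[K] Module.End K (A →ₗ[K] N) :=
  AlgHom.ofLinearMap (LinearMap.llcomp K A N N) (by ext; simp) (by intros; ext; simp)

/-- precomposition with a multiplication -/
noncomputable def rgt (A : Type u) [CommRing A] [Algebra K A] (N : Type u) [AddCommGroup N]
    [Module K N] : A →ₐ[K] Module.End K (A →ₗ[K] N) :=
  AlgHom.ofLinearMap ((LinearMap.llcomp K A A N).flip ∘ₗ (Algebra.lmul K A).toLinearMap)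
    (by ext; simp) (by intros; ext; simp [mul_left_comm, mul_assoc])

variable {N : Type u} [AddCommGroup N] [Module K N]

/-- the two-sided action -/
noncomputable def act (π : P K →ₐ[K] A) (ρ : P K →ₐ[K] Module.End K N) :
    P K ⊗[K] P K →ₐ[K] Module.End K (A →ₗ[K] N) :=
  Algebra.TensorProduct.lift ((lft A N).comp ρ) ((rgt A N).comp π) (by
    intro r s
    ext h x
    simp [lft, rgt])

lemma act_tmul (π : P K →ₐ[K] A) (ρ : P K →ₐ[K] Module.End K N) (r s : P K) (h : A →ₗ[K] N)
    (x : A) : act π ρ (r ⊗ₜ s) h x = ρ r (h (π s * x)) := by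
  simp [act, lft, rgt]

lemma act_nat (π : P K →ₐ[K] A) (ρ : P K →ₐ[K] Module.End K N) {N' : Type u} [AddCommGroup N']
    [Module K N'] (ρ' : P K →ₐ[K] Module.End K N') (φ : N →ₗ[K] N')
    (hφ : ∀ r x, φ (ρ r x) = ρ' r (φ x)) (b : P K ⊗[K] P K) (h : A →ₗ[K] N) :
    φ ∘ₗ act π ρ b h = act π ρ' b (φ ∘ₗ h) := by
  induction b using TensorProduct.induction_on with
  | zero => simp
  | tmul r s => ext x; simp [act_tmul, hφ]
  | add b c hb hc => simp only [map_add, LinearMap.add_apply, LinearMap.comp_add, hb, hc]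

/-- the module structure given by `act` -/
@[reducible] noncomputable def modH (π : P K →ₐ[K] A) (ρ : P K →ₐ[K] Module.End K N) :
    Module (P K ⊗[K] P K) (A →ₗ[K] N) :=
  Module.compHom _ (act π ρ).toRingHom

/-- multiplication operators -/
noncomputable def rhoA (π : P K →ₐ[K] A) : P K →ₐ[K] Module.End K A := (Algebra.lmul K A).comp π

@[simp] lemma rhoA_apply (π : P K →ₐ[K] A) (r : P K) (x : A) : rhoA π r x = π r * x := rfl

/-- bimodule derivations -/
def IsBD (π : P K →ₐ[K] A) (D : P K →ₗ[K] Module.End K A) : Prop :=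
  ∀ r s x, D (r * s) x = π r * D s x + D r (π s * x)

/-- the deformed action on `A × A` -/
noncomputable def rhoD (π : P K →ₐ[K] A) (D : P K →ₗ[K] Module.End K A) (hD : IsBD π D) :
    P K →ₐ[K] Module.End K (A × A) :=
  AlgHom.ofLinearMap
    { toFun := fun r => (rhoA π r).prodMap (rhoA π r) +
        LinearMap.inr K A A ∘ₗ D r ∘ₗ LinearMap.fst K A A
      map_add' := by intro r s; ext <;> simp
      map_smul' := by intro c r; ext <;> simp }
    (by
      have : ∀ x, D 1 x = 0 := fun x => by simpa using hD 1 1 x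
      ext <;> simp [this])
    (by
      intro r s
      refine LinearMap.ext fun x => Prod.ext ?_ ?_
      · simp [mul_assoc]
      · simp [hD r s, mul_add, mul_assoc]; ring)

lemma rhoD_apply (π : P K →ₐ[K] A) (D : P K →ₗ[K] Module.End K A) (hD : IsBD π D) (r : P K)
    (x : A × A) : rhoD π D hD r x = (π r * x.1, π r * x.2 + D r x.1) := by
  ext <;> simp [rhoD]

/-- `r ⊗ 1 - 1 ⊗ r` -/
noncomputable def dg (r : P K) : P K ⊗[K] P K := r ⊗ₜ 1 - 1 ⊗ₜ r

lemma good_of_BD (π : P K →ₐ[K] A) (D : P K →ₗ[K] Module.End K A) (hD : IsBD π D)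
    (F : Fin 3 → P K) (hF : ∀ k, π (F k) = 0) :
    @Good _ _ (A →ₗ[K] A) _ (modH π (rhoA π)) (fun j => dg (X j)) (fun k => dg (F k))
      (fun j h => D (X j) ∘ₗ h) (fun k h => D (F k) ∘ₗ h) := by
  let _ := modH π (rhoA π)
  let _ := modH π (rhoD π D hD)
  have sA : ∀ (b : P K ⊗[K] P K) (h : A →ₗ[K] A), b • h = act π (rhoA π) b h := fun _ _ => rfl
  have sN : ∀ (b : P K ⊗[K] P K) (h : A →ₗ[K] A × A), b • h = act π (rhoD π D hD) b h :=
    fun _ _ => rfl
  have h1 : ∀ x, D 1 x = 0 := fun x => by simpa using hD 1 1 x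
  refine ⟨A →ₗ[K] A × A, inferInstance, modH π (rhoD π D hD),
    { toFun := fun h => LinearMap.inr K A A ∘ₗ h
      map_add' := fun _ _ => LinearMap.comp_add _ _ _
      map_smul' := fun b h => ?_ },
    { toFun := fun h => LinearMap.fst K A A ∘ₗ h
      map_add' := fun _ _ => LinearMap.comp_add _ _ _
      map_smul' := fun b h => ?_ },
    { toFun := fun h => LinearMap.inl K A A ∘ₗ h
      map_add' := fun _ _ => LinearMap.comp_add _ _ _
      map_zero' := LinearMap.comp_zero _ }, ?_, ?_, ?_, ?_⟩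
  · rw [sA, RingHom.id_apply, sN]
    exact act_nat π _ _ _ (fun r x => by simp [rhoD_apply]) b h
  · rw [sN, RingHom.id_apply, sA]
    exact act_nat π _ _ _ (fun r x => by simp [rhoD_apply]) b h
  · intro h h' e
    ext x
    have := congrArg (fun g : A →ₗ[K] A × A => (g x).2) e
    simpa using this
  · intro h; ext x; simp
  · intro j h
    rw [sN, sA]
    refine LinearMap.ext fun x => ?_
    simp [dg, act_tmul, rhoD_apply, h1]
  · intro k h
    rw [sN]
    refine LinearMap.ext fun x => ?_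
    simp [dg, act_tmul, rhoD_apply, h1, hF]

lemma exists_divdiff (r : P K) : ∃ d : Fin 3 → P K ⊗[K] P K,
    dg r = d 0 * dg (X 0) + d 1 * dg (X 1) + d 2 * dg (X 2) := by
  induction r using MvPolynomial.induction_on with
  | C c =>
    refine ⟨0, ?_⟩
    have : (C c : P K) = c • (1 : P K) := by rw [smul_eq_C_mul, mul_one]
    simp only [dg, this, Pi.zero_apply, zero_mul, add_zero]
    rw [← TensorProduct.smul_tmul', TensorProduct.tmul_smul, sub_self]
  | add p q hp hq =>
    obtain ⟨d, hd⟩ := hp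
    obtain ⟨e, he⟩ := hq
    refine ⟨d + e, ?_⟩
    have : dg (p + q) = dg p + dg q := by simp only [dg, add_tmul, tmul_add]; ring
    rw [this, hd, he]; simp only [Pi.add_apply]; ring
  | mul_X p j hp =>
    obtain ⟨d, hd⟩ := hp
    have : dg (p * X j) = (X j ⊗ₜ 1) * dg p + (1 ⊗ₜ p) * dg (X j) := by
      simp only [dg, mul_sub, Algebra.TensorProduct.tmul_mul_tmul, one_mul, mul_one]
      rw [mul_comm (X j) p]; ring
    refine ⟨fun i => (X j ⊗ₜ 1) * d i + if i = j then 1 ⊗ₜ p else 0, ?_⟩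
    rw [this, hd]
    fin_cases j <;> simp <;> ring

lemma exists_comm [FiniteDimensional K A] (π : P K →ₐ[K] A) (hπ : Function.Surjective π)
    (θ : A →ₗ[K] A) (hθ : ∀ u : A, LinearMap.trace K A (Algebra.lmul K A u * θ) = 0) :
    ∃ y : Fin 3 → (A →ₗ[K] A), θ = ∑ j, (rhoA π (X j) * y j - y j * rhoA π (X j)) := by
  let Ψ : (Fin 3 → (A →ₗ[K] A)) →ₗ[K] (A →ₗ[K] A) :=
    { toFun := fun y => ∑ j, (rhoA π (X j) * y j - y j * rhoA π (X j))
      map_add' := by
        intro y z
        simp only [Pi.add_apply, mul_add, add_mul, ← Finset.sum_add_distrib]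
        exact Finset.sum_congr rfl fun j _ => by abel
      map_smul' := by
        intro c y
        simp only [Pi.smul_apply, mul_smul_comm, smul_mul_assoc, RingHom.id_apply, Finset.smul_sum,
          smul_sub] }
  by_contra hn
  have hn' : θ ∉ LinearMap.range Ψ := fun ⟨y, hy⟩ => hn ⟨y, hy.symm⟩
  obtain ⟨φ, hφ, hφ0⟩ := Submodule.exists_dual_map_eq_bot_of_notMem hn' inferInstance
  let T : (A →ₗ[K] A) →ₗ[K] Module.Dual K (A →ₗ[K] A) :=
    (LinearMap.mul K (Module.End K A)).compr₂ (LinearMap.trace K A)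
  have hT : ∀ z w, T z w = LinearMap.trace K A (z * w) := fun _ _ => rfl
  have hinj : ∀ z : A →ₗ[K] A, (∀ w, LinearMap.trace K A (z * w) = 0) → z = 0 := by
    intro z hz
    let b := Module.finBasis K A
    apply (LinearMap.toMatrix b b).injective
    rw [map_zero, Matrix.ext_iff_trace_mul_right]
    intro x
    have := hz (Matrix.toLin b b x)
    rw [LinearMap.trace_eq_matrix_trace K b, LinearMap.toMatrix_mul, LinearMap.toMatrix_toLin]
      at this
    simpa using this
  have hTi : Function.Injective T := by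
    rw [injective_iff_map_eq_zero]
    exact fun z hz => hinj z fun w => by rw [← hT, hz]; rfl
  obtain ⟨z, rfl⟩ := (LinearMap.injective_iff_surjective_of_finrank_eq_finrank
    (Subspace.dual_finrank_eq).symm).1 hTi φ
  have hz : ∀ j, z * rhoA π (X j) = rhoA π (X j) * z := by
    intro j
    rw [← sub_eq_zero]
    refine hinj _ fun w => ?_
    have : T z (Ψ (Pi.single j w)) = 0 := by
      have : T z (Ψ (Pi.single j w)) ∈ (LinearMap.range Ψ).map (T z) :=
        Submodule.mem_map_of_mem (LinearMap.mem_range_self _ _)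
      rwa [hφ0, Submodule.mem_bot] at this
    have e : Ψ (Pi.single j w) = rhoA π (X j) * w - w * rhoA π (X j) := by
      change ∑ i : Fin 3, (rhoA π (X i) * (Pi.single j w : Fin 3 → (A →ₗ[K] A)) i -
        (Pi.single j w : Fin 3 → (A →ₗ[K] A)) i * rhoA π (X i)) = _
      rw [Finset.sum_eq_single j]
      · simp
      · intro i _ hi; simp [Pi.single_eq_of_ne hi]
      · simp
    rw [e, hT, mul_sub, map_sub, ← mul_assoc z w, LinearMap.trace_mul_comm K (z * w)] at this
    rw [sub_mul, map_sub, mul_assoc, mul_assoc]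
    exact this
  have hz2 : ∀ r x, z (π r * x) = π r * z x := by
    intro r
    induction r using MvPolynomial.induction_on with
    | C c => intro x; simp [← Algebra.smul_def]
    | add p q hp hq => intro x; simp [add_mul, hp, hq]
    | mul_X p j hp =>
      intro x
      have := LinearMap.congr_fun (hz j) x
      simp only [Module.End.mul_apply, rhoA_apply] at this
      rw [map_mul π, mul_assoc, hp, this, mul_assoc]
  have hz3 : z = Algebra.lmul K A (z 1) := by
    ext x
    obtain ⟨r, rfl⟩ := hπ x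
    have := hz2 r 1
    rw [mul_one] at this
    simp [this, mul_comm]
  apply hφ
  rw [hT, hz3]
  exact hθ _

theorem det_zero_of_BD [FiniteDimensional K A] (π : P K →ₐ[K] A) (hπ : Function.Surjective π)
    (V : ℕ → Submodule K A) (hV0 : V 0 = ⊤) (N : ℕ) (hVN : V N = ⊥)
    (hVm : ∀ i u x, x ∈ V i → u * x ∈ V i) (hVa : ∀ i, V (i + 1) ≤ V i)
    (D : Fin 3 → (P K →ₗ[K] Module.End K A)) (hD : ∀ i, IsBD π (D i))
    (hDV : ∀ i j n x, x ∈ V n → D i (X j) x ∈ V (n + 1))
    (F : Fin 3 → P K) (hF : ∀ k, π (F k) = 0) (G : Fin 3 → Fin 3 → A)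
    (hG : ∀ i k x, D i (F k) x = G i k * x) : (Matrix.of G).det = 0 := by
  let _ := modH π (rhoA π)
  have sA : ∀ (b : P K ⊗[K] P K) (h : A →ₗ[K] A), b • h = act π (rhoA π) b h := fun _ _ => rfl
  choose Δ hΔ using fun k => exists_divdiff (F k)
  set θ : A →ₗ[K] A :=
    D 2 (X 0) ∘ₗ (D 1 (X 1) ∘ₗ D 0 (X 2) ∘ₗ LinearMap.id - D 1 (X 2) ∘ₗ D 0 (X 1) ∘ₗ LinearMap.id) +
    D 2 (X 1) ∘ₗ (D 1 (X 2) ∘ₗ D 0 (X 0) ∘ₗ LinearMap.id - D 1 (X 0) ∘ₗ D 0 (X 2) ∘ₗ LinearMap.id) +
    D 2 (X 2) ∘ₗ (D 1 (X 0) ∘ₗ D 0 (X 1) ∘ₗ LinearMap.id - D 1 (X 1) ∘ₗ D 0 (X 0) ∘ₗ LinearMap.id)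
    with hθ
  have hθV : ∀ n x, x ∈ V n → θ x ∈ V (n + 1) := by
    intro n x hx
    have h2 : ∀ i j i' j', D i (X j) (D i' (X j') x) ∈ V n := fun i j i' j' =>
      hVa _ (hDV _ _ _ _ (hVa _ (hDV _ _ _ _ hx)))
    simp only [hθ, LinearMap.add_apply, LinearMap.comp_apply, LinearMap.sub_apply,
      LinearMap.id_apply]
    refine add_mem (add_mem ?_ ?_) ?_ <;> exact hDV _ _ _ _ (sub_mem (h2 _ _ _ _) (h2 _ _ _ _))
  obtain ⟨y, hy⟩ := exists_comm π hπ θ (by
    intro u
    refine (LinearMap.isNilpotent_trace_of_isNilpotent ⟨N, ?_⟩).eq_zero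
    have : ∀ n x, ((Algebra.lmul K A u * θ) ^ n) x ∈ V n := by
      intro n
      induction n with
      | zero => intro x; rw [hV0]; trivial
      | succ n ih =>
        intro x
        rw [pow_succ', Module.End.mul_apply, Module.End.mul_apply]
        exact hVm _ u _ (hθV _ _ (ih x))
    ext x
    have := this N x
    rwa [hVN, Submodule.mem_bot] at this)
  have := three_steps (good_of_BD π (D 0) (hD 0) F hF) (good_of_BD π (D 1) (hD 1) F hF)
    (good_of_BD π (D 2) (hD 2) F hF) hΔ LinearMap.id (by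
      intro j
      rw [sA]; ext x; simp [dg, act_tmul]) y (by
      rw [← hθ, hy, Fin.sum_univ_three]
      simp only [pr, sA]
      ext x; simp [dg, act_tmul]) (by
      intro k h
      rw [sA]; ext x; simp [dg, act_tmul, hF])
  have h1 := LinearMap.congr_fun this 1
  simp only [LinearMap.add_apply, LinearMap.comp_apply, LinearMap.sub_apply,
    LinearMap.id_apply, hG, LinearMap.zero_apply] at h1
  rw [Matrix.det_fin_three]
  simp only [Matrix.of_apply]
  linear_combination -h1

end act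

end Pool.Agent.H141Z.Gor
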