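import Mathlib

/-!
Definitions: Gorenstein and complete intersection points of the punctual Hilbert scheme of
`k[[x,y,z]]`, the standard affine charts and the Zariski closure of the complete intersection locus.
-/

set_option autoImplicit false

namespace Pool.Agent.H141Z.Gor

universe u

variable {k : Type u} [Field k]

/-- The socle `0 : m` of `R / I`, where `R = k[[x,y,z]]` and `m` is its maximal ideal. -/
def socle (I : Ideal (MvPowerSeries (Fin 3) k)) : Submodule k (MvPowerSeries (Fin 3) k ⧸ I) where
  carrier := {a | ∀ r ∈ IsLocalRing.maximalIdeal (MvPowerSeries (Fin 3) k),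
    Ideal.Quotient.mk I r * a = 0}
  zero_mem' := fun _ _ => mul_zero _
  add_mem' := fun ha hb r hr => by rw [mul_add, ha r hr, hb r hr, add_zero]
  smul_mem' := fun c _ ha r hr => by rw [mul_smul_comm, ha r hr, smul_zero]

/-- `R / I` is a local Artinian Gorenstein algebra: `I` contains a power of `m` and the socle of
`R / I` is one-dimensional. -/
def IsArtinGorenstein (I : Ideal (MvPowerSeries (Fin 3) k)) : Prop :=
  (∃ N : ℕ, IsLocalRing.maximalIdeal (MvPowerSeries (Fin 3) k) ^ N ≤ I) ∧
    Module.finrank k (socle I) = 1

/-- `I` is generated by three elements. -/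
def IsCI (I : Ideal (MvPowerSeries (Fin 3) k)) : Prop :=
  ∃ f : Fin 3 → MvPowerSeries (Fin 3) k, I = Ideal.span (Set.range f)

/-- `J` lies in the standard affine chart of the Grassmannian given by the `n` monomials `x ^ β i`,
with affine coordinates `c`: the classes of these monomials are a basis of `R / J`, and
`x ^ e ≡ ∑ i, c (e, i) x ^ β i` modulo `J` for every exponent `e`. -/
def InChart {n : ℕ} (β : Fin n → (Fin 3 →₀ ℕ)) (J : Ideal (MvPowerSeries (Fin 3) k))
    (c : (Fin 3 →₀ ℕ) × Fin n → k) : Prop :=
  LinearIndependent k (fun i => Ideal.Quotient.mk J (MvPowerSeries.monomial (β i) 1)) ∧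
    Submodule.span k (Set.range fun i => Ideal.Quotient.mk J (MvPowerSeries.monomial (β i) 1))
      = ⊤ ∧
    ∀ e, MvPowerSeries.monomial e 1 - ∑ i, c (e, i) • MvPowerSeries.monomial (β i) 1 ∈ J

/-- `I`, of colength `n`, lies in the Zariski closure of the locus of complete intersection ideals
of colength `n`: on every standard chart containing `I`, a polynomial in the affine coordinates
that vanishes at all complete intersection ideals of the chart vanishes at `I`. -/
def InClosureCI (n : ℕ) (I : Ideal (MvPowerSeries (Fin 3) k)) : Prop :=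
  ∀ (β : Fin n → (Fin 3 →₀ ℕ)) (c₀ : (Fin 3 →₀ ℕ) × Fin n → k), InChart β I c₀ →
    ∀ p : MvPolynomial ((Fin 3 →₀ ℕ) × Fin n) k,
      (∀ J c, IsCI J → InChart β J c → MvPolynomial.eval c p = 0) → MvPolynomial.eval c₀ p = 0

end Pool.Agent.H141Z.Gor
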