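import Mathlib

/-!
A finitely generated extension of a perfect field has as many independent derivations as its
transcendence degree.
-/

set_option autoImplicit false

namespace Pool.Agent.H141Z.Gor

universe u

open scoped IntermediateField.algebraAdjoinAdjoin in
theorem exists_ders (k K : Type u) [Field k] [PerfectField k] [Field K] [Algebra k K]
    [Algebra.EssFiniteType k K] : ∃ (s : Finset K) (δ : s → Derivation k K K),
      LinearIndependent K δ ∧ Algebra.trdeg k K = (s.card : Cardinal) := by
  classical
  obtain ⟨s, hs, H⟩ := exists_isTranscendenceBasis_and_isSeparable_of_perfectField k K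
  have hsep : Algebra.IsSeparable (IntermediateField.adjoin k (Set.range ((↑) : s → K))) K := by
    convert! H <;> simp
  let A := MvPolynomial s k
  let S := Algebra.adjoin k (Set.range ((↑) : s → K))
  let L := IntermediateField.adjoin k (Set.range ((↑) : s → K))
  let e : A ≃ₐ[k] S := hs.1.aevalEquiv
  let _ : Algebra A S := e.toRingHom.toAlgebra
  let _ : Algebra A K := ((algebraMap S K).comp e.toRingHom).toAlgebra
  have : IsScalarTower A S K := IsScalarTower.of_algebraMap_eq fun _ => rfl
  have : IsScalarTower k A K := IsScalarTower.of_algebraMap_eq fun x => by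
    change _ = algebraMap S K (e (algebraMap k A x))
    rw [e.commutes]; rfl
  have h1 : Algebra.FormallyEtale A S :=
    Algebra.FormallyEtale.of_equiv (A := A) (AlgEquiv.ofBijective (Algebra.ofId A S) e.bijective)
  have h2 : Algebra.FormallyEtale S L := Algebra.FormallyEtale.of_isLocalization (nonZeroDivisors _)
  have h3 : Algebra.FormallyEtale L K := Algebra.FormallyEtale.of_isSeparable _ K
  have h4 : Algebra.FormallyEtale S K := Algebra.FormallyEtale.comp S L K
  have h5 : Algebra.FormallyEtale A K := Algebra.FormallyEtale.comp A S K
  let b : Module.Basis s K (KaehlerDifferential k K) :=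
    ((KaehlerDifferential.mvPolynomialBasis k s).baseChange K).map
      (KaehlerDifferential.tensorKaehlerEquivOfFormallyEtale k A K)
  refine ⟨s, fun i => KaehlerDifferential.linearMapEquivDerivation k K (b.dualBasis i), ?_, ?_⟩
  · exact b.dualBasis.linearIndependent.map'
      (KaehlerDifferential.linearMapEquivDerivation k K).toLinearMap (LinearEquiv.ker _)
  · rw [← hs.cardinalMk_eq_trdeg]; simp

end Pool.Agent.H141Z.Gor
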