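import Mathlib
import Pool.Agent.H141Z.Gor.Atiyah

/-!
The bound on the number of independent derivations.
-/

set_option autoImplicit false

open MvPolynomial

namespace Pool.Agent.H141Z.Gor

universe u

variable {k : Type u} [CommRing k] {K : Type u} [Field K] [Algebra k K]

/-- a derivation acting on the coefficients -/
noncomputable def dP (δ : Derivation k K K) (f : P K) : P K :=
  ∑ e ∈ f.support, monomial e (δ (coeff e f))

lemma coeff_dP (δ : Derivation k K K) (f : P K) (e : Fin 3 →₀ ℕ) :
    coeff e (dP δ f) = δ (coeff e f) := by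
  classical
  unfold dP
  rw [coeff_sum]
  simp only [coeff_monomial]
  rw [Finset.sum_ite_eq']
  split_ifs with h
  · rfl
  · rw [notMem_support_iff.1 h, map_zero]

lemma dP_add (δ : Derivation k K K) (f g : P K) : dP δ (f + g) = dP δ f + dP δ g := by
  ext e; simp [coeff_dP]

lemma dP_sub (δ : Derivation k K K) (f g : P K) : dP δ (f - g) = dP δ f - dP δ g := by
  ext e; simp [coeff_dP]

lemma dP_zero (δ : Derivation k K K) : dP δ 0 = 0 := by
  ext e; simp [coeff_dP]

lemma dP_sum (δ : Derivation k K K) {ι : Type*} (s : Finset ι) (f : ι → P K) :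
    dP δ (∑ i ∈ s, f i) = ∑ i ∈ s, dP δ (f i) := by
  ext e; simp [coeff_dP, coeff_sum]

lemma dP_smul (δ : Derivation k K K) (c : K) (f : P K) :
    dP δ (c • f) = δ c • f + c • dP δ f := by
  ext e; simp [coeff_dP]; ring

lemma dP_mul (δ : Derivation k K K) (f g : P K) : dP δ (f * g) = f * dP δ g + dP δ f * g := by
  classical
  ext e
  simp only [coeff_dP, coeff_mul, coeff_add, map_sum, Derivation.leibniz, smul_eq_mul,
    ← Finset.sum_add_distrib]
  exact Finset.sum_congr rfl fun x _ => by ring

lemma dP_monomial (δ : Derivation k K K) (e : Fin 3 →₀ ℕ) : dP δ (monomial e 1) = 0 := by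
  classical
  ext e'
  rw [coeff_dP, coeff_monomial]
  split_ifs <;> simp

lemma dP_X (δ : Derivation k K K) (j : Fin 3) : dP δ (X j) = 0 := dP_monomial δ _

lemma exists_conn (δ : Derivation k K K) {M : Type u} [AddCommGroup M] [Module K M]
    (V : ℕ → Submodule K M) (hV : Antitone V) (N : ℕ) (hN : V N = ⊥) :
    ∃ c : M →+ M, (∀ a v, c (a • v) = δ a • v + a • c v) ∧ ∀ j v, v ∈ V j → c v ∈ V j := by
  have key : ∀ m : ℕ, ∃ c : M →+ M, (∀ a v, c (a • v) = δ a • v + a • c v) ∧
      ∀ j, N ≤ j + m → ∀ v, v ∈ V j → c v ∈ V j := by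
    intro m
    induction m with
    | zero =>
      let b := Module.Basis.ofVectorSpace K M
      refine ⟨{ toFun := fun v => b.repr.symm (Finsupp.mapRange δ (map_zero δ) (b.repr v))
                map_zero' := by simp
                map_add' := fun v w => by
                  rw [← map_add]; congr 1; ext i; simp }, ?_, ?_⟩
      · intro a v
        apply b.repr.injective
        ext i
        simp; ring
      · intro j hj v hv
        have : v = 0 := by
          have := hV (show N ≤ j by omega) hv
          rwa [hN, Submodule.mem_bot] at this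
        rw [this, map_zero]; exact zero_mem _
    | succ m ih =>
      obtain ⟨c, hc, hc'⟩ := ih
      obtain ⟨q, hq⟩ := (V (N - (m + 1))).exists_isCompl
      let p : M →ₗ[K] M := (V (N - (m + 1))).subtype ∘ₗ Submodule.projectionOnto _ _ hq
      have hp1 : ∀ v, p v ∈ V (N - (m + 1)) := fun v => Subtype.property _
      have hp2 : ∀ v, v ∈ V (N - (m + 1)) → p v = v := fun v hv => by
        have := Submodule.projectionOnto_apply_left hq ⟨v, hv⟩
        exact congrArg Subtype.val this
      refine ⟨{ toFun := fun v => c v - (c (p v) - p (c (p v)))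
                map_zero' := by simp
                map_add' := fun v w => by simp only [map_add]; abel }, ?_, ?_⟩
      · intro a v
        simp only [AddMonoidHom.coe_mk, ZeroHom.coe_mk, map_smul, hc, map_add, hp2 _ (hp1 v),
          smul_sub]
        abel
      · intro j hj v hv
        have hle : V j ≤ V (N - (m + 1)) := hV (by omega)
        simp only [AddMonoidHom.coe_mk, ZeroHom.coe_mk, hp2 v (hle hv), sub_sub_cancel]
        by_cases h : N ≤ j + m
        · rw [hp2 _ (hle (hc' j h v hv))]; exact hc' j h v hv
        · have : j = N - (m + 1) := by omega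
          rw [this]; exact hp1 _
  obtain ⟨c, hc, hc'⟩ := key N
  exact ⟨c, hc, fun j => hc' j (by omega)⟩

variable {A : Type u} [CommRing A] [Algebra K A]

theorem det_dP [FiniteDimensional K A] (π : P K →ₐ[K] A) (hπ : Function.Surjective π)
    (hnil : ∀ j, IsNilpotent (π (X j))) (δ : Fin 3 → Derivation k K K)
    (F : Fin 3 → P K) (hF : ∀ l, π (F l) = 0) :
    (Matrix.of fun i l => π (dP (δ i) (F l))).det = 0 := by
  set m : Ideal A := Ideal.span (Set.range fun j => π (X j)) with hm
  obtain ⟨N, hN⟩ : ∃ N, m ^ N ≤ ⊥ := by
    refine Ideal.exists_pow_le_of_le_radical_of_fg ?_ (Submodule.fg_span (Set.finite_range _))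
    rw [hm, Ideal.span_le]
    rintro _ ⟨j, rfl⟩
    exact hnil j
  let V : ℕ → Submodule K A := fun i => (m ^ i).restrictScalars K
  have hV : Antitone V := fun i j hij => Ideal.pow_le_pow_right hij
  have hVN : V N = ⊥ := by
    rw [eq_bot_iff]; exact fun x hx => hN hx
  choose c hc hc' using fun i => exists_conn (δ i) V hV N hVN
  let D : Fin 3 → (P K →ₗ[K] Module.End K A) := fun i =>
    { toFun := fun r =>
        { toFun := fun x => c i (π r * x) - π r * c i x - π (dP (δ i) r) * x
          map_add' := fun x y => by simp only [mul_add, map_add]; ring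
          map_smul' := fun a x => by
            simp only [mul_smul_comm, hc, RingHom.id_apply, mul_add, smul_sub]; abel }
      map_add' := fun r s => by
        ext x; simp [dP_add, add_mul]; ring
      map_smul' := fun a r => by
        ext x
        simp only [dP_smul, map_smul, smul_mul_assoc, hc, map_add, add_mul, LinearMap.coe_mk,
          AddHom.coe_mk, RingHom.id_apply, LinearMap.smul_apply, smul_sub]
        abel }
  have hD : ∀ i r x, D i r x = c i (π r * x) - π r * c i x - π (dP (δ i) r) * x :=
    fun _ _ _ => rfl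
  have := det_zero_of_BD π hπ V (by simp [V]) N hVN (fun i u x hx => Ideal.mul_mem_left _ u hx)
    (fun i => hV (Nat.le_succ i)) D (fun i r s x => by
      simp only [hD, dP_mul, map_mul, map_add, mul_assoc]; ring) (fun i j n x hx => by
      have hj : π (X j) ∈ m := Ideal.subset_span ⟨j, rfl⟩
      have h1 : ∀ y, y ∈ V n → π (X j) * y ∈ V (n + 1) := fun y hy => by
        change π (X j) * y ∈ m ^ (n + 1)
        rw [pow_succ']
        exact Ideal.mul_mem_mul hj hy
      rw [hD, dP_X, map_zero, zero_mul, sub_zero]
      exact sub_mem (hc' _ _ _ (h1 x hx)) (h1 _ (hc' _ _ _ hx))) F hF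
    (fun i l => -π (dP (δ i) (F l))) (fun i l x => by rw [hD, hF]; simp)
  have e : (Matrix.of fun i l => -π (dP (δ i) (F l))) =
      -(Matrix.of fun i l => π (dP (δ i) (F l))) := rfl
  rw [e, Matrix.det_neg] at this
  simpa using this

/-- standard monomials -/
def Std (J : Ideal (P K)) : Set (Fin 3 →₀ ℕ) :=
  {e | ¬ ∃ f ∈ J, f ≠ 0 ∧ (MonomialOrder.degLex (σ := Fin 3)).degree f = e}

lemma std_indep (π : P K →ₐ[K] A) :
    LinearIndependent K fun e : Std (RingHom.ker π) => π (monomial e.1 1) := by
  classical
  rw [linearIndependent_iff']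
  intro s g hg i hi
  by_contra hne
  set f : P K := ∑ e ∈ s, monomial e.1 (g e) with hf
  have hco : ∀ e ∈ s, coeff e.1 f = g e := by
    intro e he
    rw [hf, coeff_sum, Finset.sum_eq_single e]
    · simp
    · intro b _ hb
      rw [coeff_monomial, if_neg fun h => hb (Subtype.ext h)]
    · exact fun h => absurd he h
  have hf0 : f ≠ 0 := fun h => hne (by rw [← hco i hi, h, coeff_zero])
  have hfJ : f ∈ RingHom.ker π := by
    rw [RingHom.mem_ker, hf, map_sum, ← hg]
    refine Finset.sum_congr rfl fun e _ => ?_
    rw [← map_smul, smul_monomial, smul_eq_mul, mul_one]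
  have hd := (MonomialOrder.degLex (σ := Fin 3)).degree_mem_support hf0
  obtain ⟨e, _, he⟩ : ∃ e ∈ s, e.1 = (MonomialOrder.degLex (σ := Fin 3)).degree f := by
    by_contra h
    push Not at h
    rw [mem_support_iff] at hd
    apply hd
    rw [hf, coeff_sum]
    exact Finset.sum_eq_zero fun e he => by rw [coeff_monomial, if_neg (h e he)]
  exact e.2 ⟨f, hfJ, hf0, he.symm⟩

lemma std_span (π : P K →ₐ[K] A) (hπ : Function.Surjective π) :
    Submodule.span K (Set.range fun e : Std (RingHom.ker π) => π (monomial e.1 1)) = ⊤ := by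
  classical
  set mo := MonomialOrder.degLex (σ := Fin 3) with hmo
  set W := Submodule.span K (Set.range fun e : Std (RingHom.ker π) => π (monomial e.1 1)) with hW
  have key : ∀ (t : mo.syn) (e : Fin 3 →₀ ℕ), mo.toSyn e = t → π (monomial e 1) ∈ W := by
    intro t
    induction t using WellFoundedLT.induction with
    | ind t ih =>
      intro e he
      by_cases h : e ∈ Std (RingHom.ker π)
      · exact Submodule.subset_span ⟨⟨e, h⟩, rfl⟩
      · obtain ⟨f, hfJ, hf0, hfe⟩ := not_not.1 h
        have hsum : ∑ d ∈ f.support, coeff d f • π (monomial d 1) = 0 := by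
          have := (RingHom.mem_ker).1 hfJ
          rw [f.as_sum, map_sum] at this
          rw [← this]
          refine Finset.sum_congr rfl fun d _ => ?_
          rw [← map_smul, smul_monomial, smul_eq_mul, mul_one]
        have hes : e ∈ f.support := hfe ▸ mo.degree_mem_support hf0
        rw [← Finset.add_sum_erase _ _ hes] at hsum
        have h2 : ∑ d ∈ f.support.erase e, coeff d f • π (monomial d 1) ∈ W := by
          refine Submodule.sum_mem _ fun d hd => Submodule.smul_mem _ _ (ih (mo.toSyn d) ?_ d rfl)
          have h3 := mo.le_degree (Finset.mem_of_mem_erase hd)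
          rw [hfe, he] at h3
          refine lt_of_le_of_ne h3 fun h4 => Finset.ne_of_mem_erase hd ?_
          exact mo.toSyn.injective (h4.trans he.symm)
        have h3 : coeff e f • π (monomial e 1) ∈ W := by
          rw [eq_neg_of_add_eq_zero_left hsum]; exact neg_mem h2
        exact (Submodule.smul_mem_iff _ (mem_support_iff.1 hes)).1 h3
  rw [eq_top_iff]
  intro x _
  obtain ⟨f, rfl⟩ := hπ x
  rw [f.as_sum, map_sum]
  refine Submodule.sum_mem _ fun d _ => ?_
  have : π (monomial d (coeff d f)) = coeff d f • π (monomial d 1) := by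
    rw [← map_smul, smul_monomial, smul_eq_mul, mul_one]
  rw [this]
  exact Submodule.smul_mem _ _ (key _ d rfl)

lemma card_std [FiniteDimensional K A] (π : P K →ₐ[K] A) (hπ : Function.Surjective π) :
    Finite (Std (RingHom.ker π)) ∧ Nat.card (Std (RingHom.ker π)) = Module.finrank K A := by
  let b := Module.Basis.mk (std_indep π) (std_span π hπ).ge
  have : Finite (Std (RingHom.ker π)) := Module.Finite.finite_basis b
  exact ⟨this, (Module.finrank_eq_nat_card_basis b).symm⟩

theorem finrank_le_of_cube [FiniteDimensional K A] (π : P K →ₐ[K] A) (hπ : Function.Surjective π)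
    (b : Ideal A) (hb : ∀ x ∈ b, x ^ 3 = 0) :
    Module.finrank K A ≤ 27 * Module.finrank K (A ⧸ b) := by
  classical
  let π' : P K →ₐ[K] A ⧸ b := (Ideal.Quotient.mkₐ K b).comp π
  have hπ' : Function.Surjective π' := (Ideal.Quotient.mkₐ_surjective K b).comp hπ
  obtain ⟨f1, c1⟩ := card_std π hπ
  obtain ⟨f2, c2⟩ := card_std π' hπ'
  let q : (Fin 3 →₀ ℕ) → (Fin 3 →₀ ℕ) := fun e => Finsupp.equivFunOnFinite.symm fun j => e j / 3
  let r : (Fin 3 →₀ ℕ) → (Fin 3 →₀ ℕ) := fun e => Finsupp.equivFunOnFinite.symm fun j => e j % 3
  have hq : ∀ e, e ∈ Std (RingHom.ker π) → q e ∈ Std (RingHom.ker π') := by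
    rintro e he ⟨f, hfJ, hf0, hfe⟩
    apply he
    refine ⟨f ^ 3 * monomial (r e) 1, ?_, mul_ne_zero (pow_ne_zero _ hf0) (by simp), ?_⟩
    · refine Ideal.mul_mem_right _ _ ?_
      rw [RingHom.mem_ker, map_pow]
      exact hb _ (Ideal.Quotient.eq_zero_iff_mem.1 hfJ)
    · rw [MonomialOrder.degree_mul (pow_ne_zero _ hf0) (by simp), MonomialOrder.degree_pow, hfe,
        MonomialOrder.degree_monomial, if_neg one_ne_zero]
      ext j
      simp [q, r]
      omega
  let g : Std (RingHom.ker π) → (Fin 3 → Fin 3) × Std (RingHom.ker π') := fun e =>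
    (fun j => ⟨e.1 j % 3, Nat.mod_lt _ (by norm_num)⟩, ⟨q e.1, hq _ e.2⟩)
  have hg : Function.Injective g := by
    intro e e' h
    ext j
    have h1 := congrArg (fun x => (x.1 j : ℕ)) h
    have h2 := congrArg (fun x => x.2.1 j) h
    simp [g, q] at h1 h2
    omega
  have := Nat.card_le_card_of_injective g hg
  rw [Nat.card_prod, c1, c2] at this
  simpa using this

theorem tangent_bound [FiniteDimensional K A] (π : P K →ₐ[K] A) (hπ : Function.Surjective π)
    (hnil : ∀ j, IsNilpotent (π (X j))) (F : Fin 3 → P K) (hF : ∀ l, π (F l) = 0)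
    (hinj : ∀ δ : Derivation k K K, (∀ l, π (dP δ (F l)) = 0) → δ = 0)
    {ι : Type u} [Fintype ι] (δ : ι → Derivation k K K) (hδ : LinearIndependent K δ) :
    81 * Fintype.card ι ≤ 242 * Module.finrank K A := by
  classical
  let Θ : Derivation k K K →ₗ[K] (Fin 3 → A) :=
    { toFun := fun δ l => π (dP δ (F l))
      map_add' := fun δ δ' => by
        funext l
        rw [Pi.add_apply, ← map_add]; congr 1; ext e; simp [coeff_dP]
      map_smul' := fun a δ => by
        funext l
        rw [Pi.smul_apply, RingHom.id_apply, ← map_smul]; congr 1; ext e; simp [coeff_dP] }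
  have hΘ : LinearMap.ker Θ = ⊥ := by
    rw [LinearMap.ker_eq_bot']
    exact fun δ h => hinj δ fun l => congrFun h l
  set N : Submodule A (Fin 3 → A) := Submodule.span A (Set.range Θ) with hN
  have hdet : ∀ v : Fin 3 → (Fin 3 → A), (∀ i, v i ∈ N) → (Matrix.of v).det = 0 := by
    intro v hv
    have h3 : ∀ x ∈ N, ∀ y ∈ N, ∀ z ∈ N, (Matrix.of ![x, y, z]).det = 0 := by
      intro x hx
      induction hx using Submodule.span_induction with
      | mem x hx =>
        intro y hy
        induction hy using Submodule.span_induction with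
        | mem y hy =>
          intro z hz
          induction hz using Submodule.span_induction with
          | mem z hz =>
            obtain ⟨a, rfl⟩ := hx
            obtain ⟨b, rfl⟩ := hy
            obtain ⟨c, rfl⟩ := hz
            have := det_dP π hπ hnil ![a, b, c] F hF
            rw [Matrix.det_fin_three] at this ⊢
            simpa [Θ] using this
          | zero => simp [Matrix.det_fin_three]
          | add z w _ _ hz hw =>
            rw [Matrix.det_fin_three] at hz hw ⊢
            simp at hz hw ⊢
            linear_combination hz + hw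
          | smul a z _ hz =>
            rw [Matrix.det_fin_three] at hz ⊢
            simp at hz ⊢
            linear_combination a * hz
        | zero => intro z _; simp [Matrix.det_fin_three]
        | add y w _ _ hy hw =>
          intro z hz
          have h1 := hy z hz
          have h2 := hw z hz
          rw [Matrix.det_fin_three] at h1 h2 ⊢
          simp at h1 h2 ⊢
          linear_combination h1 + h2
        | smul a y _ hy =>
          intro z hz
          have h1 := hy z hz
          rw [Matrix.det_fin_three] at h1 ⊢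
          simp at h1 ⊢
          linear_combination a * h1
      | zero => intro y _ z _; simp [Matrix.det_fin_three]
      | add x w _ _ hx hw =>
        intro y hy z hz
        have h1 := hx y hy z hz
        have h2 := hw y hy z hz
        rw [Matrix.det_fin_three] at h1 h2 ⊢
        simp at h1 h2 ⊢
        linear_combination h1 + h2
      | smul a x _ hx =>
        intro y hy z hz
        have h1 := hx y hy z hz
        rw [Matrix.det_fin_three] at h1 ⊢
        simp at h1 ⊢
        linear_combination a * h1
    have := h3 _ (hv 0) _ (hv 1) _ (hv 2)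
    rw [Matrix.det_fin_three] at this ⊢
    simpa using this
  let ψ : A →ₗ[A] (Fin 3 → ((Fin 3 → A) ⧸ N)) :=
    LinearMap.pi fun j => N.mkQ ∘ₗ LinearMap.single A (fun _ => A) j
  have hb : ∀ x ∈ LinearMap.ker ψ, x ^ 3 = 0 := by
    intro x hx
    have h1 : ∀ j, (Pi.single j x : Fin 3 → A) ∈ N := fun j => by
      have := congrFun (LinearMap.mem_ker.1 hx) j
      exact (Submodule.Quotient.mk_eq_zero N).1 this
    have := hdet (fun j => Pi.single j x) h1
    rw [Matrix.det_fin_three] at this
    simp at this
    linear_combination this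
  obtain ⟨b, hbd⟩ : ∃ b : Ideal A, b = LinearMap.ker ψ := ⟨_, rfl⟩
  have h1 := finrank_le_of_cube π hπ b (hbd ▸ hb)
  have h2 : Module.finrank K (A ⧸ b) ≤ 3 * Module.finrank K ((Fin 3 → A) ⧸ N) := by
    let ψ' : (A ⧸ b) →ₗ[A] (Fin 3 → ((Fin 3 → A) ⧸ N)) := Submodule.liftQ b ψ hbd.le
    have hi : Function.Injective ψ' :=
      LinearMap.ker_eq_bot.1 (Submodule.ker_liftQ_eq_bot _ _ _ hbd.ge)
    have := LinearMap.finrank_le_finrank_of_injective (f := ψ'.restrictScalars K) hi
    rw [Module.finrank_pi_fintype] at this
    simpa using this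
  have h3 : Module.finrank K ((Fin 3 → A) ⧸ N) + Module.finrank K (N.restrictScalars K) =
      3 * Module.finrank K A := by
    have := (N.restrictScalars K).finrank_quotient_add_finrank
    rw [Module.finrank_pi_fintype] at this
    simp only [Finset.sum_const, Finset.card_univ, Fintype.card_fin, smul_eq_mul] at this
    rw [← this, (Submodule.Quotient.restrictScalarsEquiv K N).finrank_eq]
  have h4 : Fintype.card ι ≤ Module.finrank K (N.restrictScalars K) := by
    have hl := hδ.map' Θ hΘ
    have hl' : LinearIndependent K fun i => (⟨Θ (δ i), Submodule.subset_span ⟨δ i, rfl⟩⟩ :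
        N.restrictScalars K) := LinearIndependent.of_comp (N.restrictScalars K).subtype hl
    exact hl'.fintype_card_le_finrank
  omega

end Pool.Agent.H141Z.Gor
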