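import Mathlib
import Pool.Agent.H141Z.Gor.Tangent
import Pool.Agent.H141Z.Gor.Der

/-!
Normal form systems over a commutative ring, spreading out of generators and the bound on the
transcendence degree of the field of definition of a complete intersection.
-/

set_option autoImplicit false

open MvPolynomial

namespace Pool.Agent.H141Z.Gor

universe u

section general

variable {D : Type u} [CommRing D] {n : ℕ}

/-- the identities satisfied by normal form coefficients -/
structure Sys (β : Fin n → (Fin 3 →₀ ℕ)) (c : (Fin 3 →₀ ℕ) → Fin n → D) : Prop where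
  base : ∀ i i', c (β i) i' = if i = i' then 1 else 0
  mul : ∀ e j i', c (e + Finsupp.single j 1) i' = ∑ i, c e i * c (β i + Finsupp.single j 1) i'

/-- the normal form map -/
noncomputable def nf (c : (Fin 3 →₀ ℕ) → Fin n → D) : P D →ₗ[D] (Fin n → D) :=
  (basisMonomials (Fin 3) D).constr D c

lemma nf_monomial (c : (Fin 3 →₀ ℕ) → Fin n → D) (e : Fin 3 →₀ ℕ) (a : D) :
    nf c (monomial e a) = a • c e := by
  have : (monomial e a : P D) = a • basisMonomials (Fin 3) D e := by
    simp [smul_monomial]
  rw [this, map_smul, nf, Module.Basis.constr_basis]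

/-- the polynomial with the given coordinates -/
noncomputable def lf (β : Fin n → (Fin 3 →₀ ℕ)) (w : Fin n → D) : P D := ∑ i, monomial (β i) (w i)

variable {β : Fin n → (Fin 3 →₀ ℕ)} {c : (Fin 3 →₀ ℕ) → Fin n → D}

lemma nf_lf (h : Sys β c) (w : Fin n → D) : nf c (lf β w) = w := by
  funext i'
  simp [lf, nf_monomial, h.base]

lemma nf_X_mul (h : Sys β c) (j : Fin 3) (f : P D) (i' : Fin n) :
    nf c (X j * f) i' = ∑ i, nf c f i * c (β i + Finsupp.single j 1) i' := by
  induction f using MvPolynomial.induction_on' with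
  | monomial e a =>
    rw [X, monomial_mul, one_mul, nf_monomial, nf_monomial, add_comm, Pi.smul_apply, h.mul,
      smul_eq_mul, Finset.mul_sum]
    exact Finset.sum_congr rfl fun i _ => by simp [mul_assoc]
  | add p q hp hq => simp [mul_add, hp, hq, add_mul, Finset.sum_add_distrib]

/-- the ideal of a system -/
noncomputable def idl (h : Sys β c) : Ideal (P D) where
  carrier := {f | nf c f = 0}
  zero_mem' := map_zero _
  add_mem' := fun {a b} ha hb => by
    simp only [Set.mem_setOf_eq] at ha hb ⊢
    rw [map_add, ha, hb, add_zero]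
  smul_mem' := fun r f hf => by
    simp only [Set.mem_setOf_eq, smul_eq_mul] at hf ⊢
    induction r using MvPolynomial.induction_on with
    | C a => rw [← smul_eq_C_mul, map_smul, hf, smul_zero]
    | add p q hp hq => rw [add_mul, map_add, hp, hq, add_zero]
    | mul_X p j hp =>
      funext i'
      rw [mul_comm p, mul_assoc, nf_X_mul h, hp]; simp

lemma mem_idl (h : Sys β c) (f : P D) : f ∈ idl h ↔ nf c f = 0 := Iff.rfl

/-- the basic relations -/
noncomputable def rel (β : Fin n → (Fin 3 →₀ ℕ)) (c : (Fin 3 →₀ ℕ) → Fin n → D)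
    (e : Fin 3 →₀ ℕ) : P D := monomial e 1 - lf β (c e)

lemma nf_rel (h : Sys β c) (e : Fin 3 →₀ ℕ) : nf c (rel β c e) = 0 := by
  rw [rel, map_sub, nf_lf h, nf_monomial, one_smul, sub_self]

lemma decomp (f : P D) (hf : nf c f = 0) : f = ∑ e ∈ f.support, coeff e f • rel β c e := by
  have h1 : ∑ e ∈ f.support, coeff e f • c e = 0 := by
    rw [← hf]
    conv_rhs => rw [f.as_sum, map_sum]
    simp only [nf_monomial]
  have h2 : ∑ e ∈ f.support, coeff e f • lf β (c e) = lf β (∑ e ∈ f.support, coeff e f • c e) := by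
    simp only [lf, Finset.smul_sum, smul_monomial, Finset.sum_apply, Pi.smul_apply, map_sum]
    rw [Finset.sum_comm]
  simp only [rel, smul_sub, Finset.sum_sub_distrib, h2, h1, smul_monomial, smul_eq_mul, mul_one]
  have : lf β (0 : Fin n → D) = 0 := by simp [lf]
  rw [this, sub_zero]
  exact f.as_sum

variable {D' : Type u} [CommRing D']

lemma Sys.map (h : Sys β c) (g : D →+* D') : Sys β fun e i => g (c e i) where
  base := fun i i' => by rw [h.base]; split_ifs <;> simp
  mul := fun e j i' => by rw [h.mul]; simp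

lemma nf_map (g : D →+* D') (f : P D) :
    nf (fun e i => g (c e i)) (MvPolynomial.map g f) = fun i => g (nf c f i) := by
  induction f using MvPolynomial.induction_on' with
  | monomial e a => funext i; simp [map_monomial, nf_monomial]
  | add p q hp hq => funext i; simp [hp, hq]

lemma map_lf (g : D →+* D') (w : Fin n → D) :
    MvPolynomial.map g (lf β w) = lf β fun i => g (w i) := by
  simp [lf, map_monomial]

lemma map_rel (g : D →+* D') (e : Fin 3 →₀ ℕ) :
    MvPolynomial.map g (rel β c e) = rel β (fun e i => g (c e i)) e := by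
  simp [rel, map_lf, map_monomial]

/-- the ideal generated by `F` and the powers of the variables -/
noncomputable def gen (N : ℕ) (F : Fin 3 → P D) : Ideal (P D) :=
  Ideal.span (Set.range F ∪ Set.range fun j : Fin 3 => (X j : P D) ^ (N + 1))

lemma map_gen (g : D →+* D') (N : ℕ) (F : Fin 3 → P D) :
    (gen N F).map (MvPolynomial.map g) = gen N fun l => MvPolynomial.map g (F l) := by
  simp only [gen, Ideal.map_span, Set.image_union, ← Set.range_comp]
  congr 3
  funext j; simp

lemma monomial_mem_gen (N : ℕ) (F : Fin 3 → P D) (e : Fin 3 →₀ ℕ) (j : Fin 3) (hj : N < e j) :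
    monomial e (1 : D) ∈ gen N F := by
  have : monomial e (1 : D) = monomial (e - Finsupp.single j (N + 1)) 1 * X j ^ (N + 1) := by
    rw [X_pow_eq_monomial, monomial_mul, one_mul, tsub_add_cancel_of_le]
    exact Finsupp.single_le_iff.2 hj
  rw [this]
  exact Ideal.mul_mem_left _ _ (Ideal.subset_span (Or.inr ⟨j, rfl⟩))

lemma gen_le (h : Sys β c) (N : ℕ) (hN : ∀ e j, N < e j → c e = 0) (F : Fin 3 → P D)
    (hF : ∀ l, nf c (F l) = 0) : gen N F ≤ idl h := by
  rw [gen, Ideal.span_le]
  rintro _ (⟨l, rfl⟩ | ⟨j, rfl⟩)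
  · exact hF l
  · change nf c (X j ^ (N + 1)) = 0
    rw [X_pow_eq_monomial, nf_monomial, hN _ j (by simp), smul_zero]

open scoped Pointwise in
theorem spread {k : Type u} [CommRing k] [Algebra k D] (ev : D →ₐ[k] k) (h : Sys β c) (N : ℕ)
    (hN : ∀ e j, N < e j → c e = 0) (F : Fin 3 → P k)
    (hF : ∀ l, nf (fun e i => ev (c e i)) (F l) = 0)
    (hgen : ∀ f, nf (fun e i => ev (c e i)) f = 0 → f ∈ gen N F) :
    ∃ (r : D) (G : Fin 3 → P D), ev r = 1 ∧ (∀ l, nf c (G l) = 0) ∧
      ∀ f, nf c f = 0 → r • f ∈ gen N G := by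
  classical
  let ι : P k →+* P D := MvPolynomial.map (algebraMap k D)
  let ε : P D →+* P k := MvPolynomial.map (ev : D →+* k)
  have hει : ∀ f, ε (ι f) = f := fun f => by
    simp only [ε, ι, map_map]
    rw [show (ev : D →+* k).comp (algebraMap k D) = RingHom.id k from by ext; simp, map_id]
  have hε : Function.Surjective ε := fun f => ⟨ι f, hει f⟩
  let G : Fin 3 → P D := fun l => ι (F l) - lf β (nf c (ι (F l)))
  have hG : ∀ l, nf c (G l) = 0 := fun l => by simp only [G, map_sub, nf_lf h, sub_self]
  have hGF : ∀ l, ε (G l) = F l := fun l => by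
    have := nf_map (c := c) (ev : D →+* k) (ι (F l))
    change nf (fun e i => ev (c e i)) (ε (ι (F l))) = _ at this
    rw [hει, hF] at this
    simp only [G, map_sub, hει]
    change F l - MvPolynomial.map (ev : D →+* k) _ = _
    rw [map_lf, ← this]; simp [lf]
  let N3 : Fin 3 →₀ ℕ := Finsupp.equivFunOnFinite.symm fun _ => N
  let N' : Submodule D (P D) := Submodule.span D (rel β c '' (Finset.Iic N3 : Set _))
  have hN' : N'.FG := Submodule.fg_span ((Finset.finite_toSet _).image _)
  have hle : N' ≤ LinearMap.ker (nf c) := by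
    rw [Submodule.span_le]; rintro _ ⟨e, _, rfl⟩; exact nf_rel h e
  have key : LinearMap.ker (nf c) ≤
      (gen N G).restrictScalars D ⊔ RingHom.ker (ev : D →+* k) • N' := by
    intro u hu
    have h1 : ε u ∈ (gen N G).map ε := by
      rw [map_gen]
      have : (fun l => MvPolynomial.map (ev : D →+* k) (G l)) = F := funext hGF
      rw [this]
      refine hgen _ ?_
      have := nf_map (c := c) (ev : D →+* k) u
      rw [LinearMap.mem_ker.1 hu] at this
      exact this.trans (by funext i; simp)
    obtain ⟨u', hu', hu2⟩ := (Ideal.mem_map_iff_of_surjective ε hε).1 h1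
    have h2 : nf c (u - u') = 0 := by
      rw [map_sub, LinearMap.mem_ker.1 hu, (mem_idl h _).1 (gen_le h N hN G hG hu'), sub_zero]
    have h3 : ∀ e, ev (coeff e (u - u')) = 0 := fun e => by
      have : ε (u - u') = 0 := by rw [map_sub, hu2, sub_self]
      have := congrArg (coeff e) this
      rwa [coeff_map] at this
    rw [show u = u' + (u - u') by ring]
    refine add_mem (Submodule.mem_sup_left hu') ?_
    rw [decomp (β := β) _ h2]
    refine Submodule.sum_mem _ fun e _ => ?_
    by_cases he : e ≤ N3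
    · exact Submodule.mem_sup_right (Submodule.smul_mem_smul (h3 e)
        (Submodule.subset_span ⟨e, by simpa using he, rfl⟩))
    · obtain ⟨j, hj⟩ : ∃ j, N < e j := by
        by_contra hc
        push Not at hc
        exact he fun j => hc j
      refine Submodule.mem_sup_left (Submodule.smul_mem _ _ ?_)
      have : rel β c e = monomial e 1 := by simp [rel, hN e j hj, lf]
      rw [this]
      exact monomial_mem_gen N G e j hj
  obtain ⟨r, hr, hr2⟩ := Submodule.exists_sub_one_mem_and_smul_le_of_fg_of_le_sup hN' hle key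
  refine ⟨r, G, ?_, hG, fun f hf => hr2 (Submodule.smul_mem_pointwise_smul _ _ _ hf)⟩
  have := RingHom.mem_ker.1 hr
  simpa [sub_eq_zero] using this

end general

theorem sys_bound (k K : Type u) [Field k] [PerfectField k] [Field K] [Algebra k K]
    [Algebra.EssFiniteType k K] {n : ℕ} {β : Fin n → (Fin 3 →₀ ℕ)}
    {c : (Fin 3 →₀ ℕ) → Fin n → K} (h : Sys β c) (N : ℕ) (hN : ∀ e j, N < e j → c e = 0)
    (F : Fin 3 → P K) (hF : ∀ l, nf c (F l) = 0) (hgen : ∀ f, nf c f = 0 → f ∈ gen N F)
    (hK : ∀ δ : Derivation k K K, (∀ e i, δ (c e i) = 0) → δ = 0) :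
    ∃ d : ℕ, Algebra.trdeg k K = d ∧ 81 * d ≤ 242 * n := by
  obtain ⟨s, δ, hδ, hs⟩ := exists_ders k K
  refine ⟨s.card, hs, ?_⟩
  have hsurj : Function.Surjective (nf c) := fun w => ⟨lf β w, nf_lf h w⟩
  let e : (P K ⧸ idl h) ≃ₗ[K] (Fin n → K) :=
    (Submodule.Quotient.restrictScalarsEquiv K (idl h)).symm ≪≫ₗ
      Submodule.quotEquivOfEq _ (LinearMap.ker (nf c)) (by ext; rfl) ≪≫ₗ
        (nf c).quotKerEquivOfSurjective hsurj
  have : FiniteDimensional K (P K ⧸ idl h) := e.symm.finiteDimensional
  have hfr : Module.finrank K (P K ⧸ idl h) = n := by rw [e.finrank_eq]; simp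
  have hz : ∀ f, Ideal.Quotient.mkₐ K (idl h) f = 0 ↔ f ∈ idl h := fun f =>
    Ideal.Quotient.eq_zero_iff_mem
  have := tangent_bound (k := k) (Ideal.Quotient.mkₐ K (idl h)) (Ideal.Quotient.mkₐ_surjective K _)
    (fun j => ⟨N + 1, by
      rw [← map_pow, hz]
      exact gen_le h N hN F hF (Ideal.subset_span (Or.inr ⟨j, rfl⟩))⟩) F
    (fun l => (hz _).2 (hF l)) (fun δ hδ => hK δ fun e i => by
      have h1 : ∀ f ∈ gen N F, dP δ f ∈ idl h := by
        intro f hf
        induction hf using Submodule.span_induction with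
        | mem x hx =>
          rcases hx with ⟨l, rfl⟩ | ⟨j, rfl⟩
          · exact (hz _).1 (hδ l)
          · simp only [X_pow_eq_monomial, dP_monomial]; exact zero_mem _
        | zero => rw [dP_zero]; exact zero_mem _
        | add x y _ _ hx hy => rw [dP_add]; exact add_mem hx hy
        | smul a x hx hx' =>
          rw [smul_eq_mul, dP_mul]
          exact add_mem (Ideal.mul_mem_left _ _ hx')
            (Ideal.mul_mem_left _ _ (gen_le h N hN F hF hx))
      have h2 := h1 _ (hgen _ (nf_rel h e))
      have h3 : dP δ (lf β (c e)) = lf β fun i => δ (c e i) := by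
        simp only [lf, dP_sum]
        refine Finset.sum_congr rfl fun i _ => ?_
        have : (monomial (β i) (c e i) : P K) = c e i • monomial (β i) 1 := by
          simp [smul_monomial]
        rw [this, dP_smul, dP_monomial]; simp [smul_monomial]
      rw [rel, dP_sub, dP_monomial, h3, zero_sub, neg_mem_iff, mem_idl, nf_lf h] at h2
      exact congrFun h2 i) δ hδ
  simpa [hfr] using this

theorem domain_bound (k D : Type u) [Field k] [PerfectField k] [CommRing D] [IsDomain D]
    [Algebra k D] [Algebra.FiniteType k D] (ev : D →ₐ[k] k) {n : ℕ} {β : Fin n → (Fin 3 →₀ ℕ)}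
    {c : (Fin 3 →₀ ℕ) → Fin n → D} (h : Sys β c) (N : ℕ) (hN : ∀ e j, N < e j → c e = 0)
    (hadj : Algebra.adjoin k (Set.range fun x : (Fin 3 →₀ ℕ) × Fin n => c x.1 x.2) = ⊤)
    (F : Fin 3 → P k) (hF : ∀ l, nf (fun e i => ev (c e i)) (F l) = 0)
    (hgen : ∀ f, nf (fun e i => ev (c e i)) f = 0 → f ∈ gen N F) :
    ∃ d : ℕ, Algebra.trdeg k D ≤ d ∧ 81 * d ≤ 242 * n := by
  obtain ⟨r, G, hr, hG, hG2⟩ := spread ev h N hN F hF hgen
  let K := FractionRing D
  have : Algebra.EssFiniteType D K := Algebra.EssFiniteType.of_isLocalization K (nonZeroDivisors D)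
  have : Algebra.EssFiniteType k K := Algebra.EssFiniteType.comp k D K
  have hr0 : algebraMap D K r ≠ 0 := by
    rw [Ne, IsFractionRing.to_map_eq_zero_iff]
    rintro rfl
    simp at hr
  obtain ⟨d, hd, hd2⟩ := sys_bound k K (h.map (algebraMap D K)) N
    (fun e j hj => by funext i; simp [hN e j hj]) (fun l => MvPolynomial.map (algebraMap D K) (G l))
    (fun l => by rw [nf_map, hG]; funext i; simp) (fun f hf => by
      rw [decomp (β := β) f hf]
      refine Submodule.sum_mem _ fun e _ => ?_
      have h1 := Ideal.mem_map_of_mem (MvPolynomial.map (algebraMap D K)) (hG2 _ (nf_rel h e))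
      rw [map_gen, smul_eq_C_mul, map_mul, map_C, map_rel] at h1
      have h2 := Ideal.mul_mem_left _ (C (coeff e f * (algebraMap D K r)⁻¹)) h1
      rw [← mul_assoc, ← map_mul, inv_mul_cancel_right₀ hr0, ← smul_eq_C_mul] at h2
      exact h2) (fun δ hδ => by
      have h1 : ∀ a : D, δ (algebraMap D K a) = 0 := by
        intro a
        have ha : a ∈ Algebra.adjoin k (Set.range fun x : (Fin 3 →₀ ℕ) × Fin n => c x.1 x.2) := by
          rw [hadj]; trivial
        induction ha using Algebra.adjoin_induction with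
        | mem x hx => obtain ⟨y, rfl⟩ := hx; exact hδ _ _
        | algebraMap a => rw [← IsScalarTower.algebraMap_apply, Derivation.map_algebraMap]
        | add x y _ _ hx hy => rw [map_add, map_add, hx, hy, add_zero]
        | mul x y _ _ hx hy => rw [map_mul, Derivation.leibniz, hx, hy]; simp
      ext z
      obtain ⟨a, b, hb, rfl⟩ := IsFractionRing.div_surjective (A := D) z
      rw [Derivation.leibniz_div, h1, h1]; simp)
  exact ⟨d, hd ▸ trdeg_le_of_injective (IsScalarTower.toAlgHom k D K)
    (IsFractionRing.injective D K), hd2⟩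

end Pool.Agent.H141Z.Gor
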