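import Mathlib
import Pool.Agent.H141Z.Gor.Defs
import Pool.Agent.H141Z.Gor.Sys

/-!
Points of a chart give normal form systems.
-/

set_option autoImplicit false

namespace Pool.Agent.H141Z.Gor

universe u

variable {k : Type u} [Field k] {n : ℕ} {β : Fin n → (Fin 3 →₀ ℕ)}
  {J : Ideal (MvPowerSeries (Fin 3) k)} {c : (Fin 3 →₀ ℕ) × Fin n → k}

lemma InChart.mk_monomial (h : InChart β J c) (e : Fin 3 →₀ ℕ) :
    Ideal.Quotient.mk J (MvPowerSeries.monomial e 1) =
      ∑ i, c (e, i) • Ideal.Quotient.mk J (MvPowerSeries.monomial (β i) 1) := by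
  have := Ideal.Quotient.eq.2 (h.2.2 e)
  rw [this, map_sum]; rfl

lemma InChart.uniq (h : InChart β J c) (w w' : Fin n → k)
    (e : ∑ i, w i • Ideal.Quotient.mk J (MvPowerSeries.monomial (β i) (1 : k)) =
      ∑ i, w' i • Ideal.Quotient.mk J (MvPowerSeries.monomial (β i) (1 : k))) : w = w' := by
  funext i
  exact (Fintype.linearIndependent_iffₛ.1 h.1) w w' e i

lemma InChart.sys (h : InChart β J c) : Sys β fun e i => c (e, i) where
  base := fun i => by
    refine congrFun (h.uniq (fun i' => c (β i, i')) (fun i' => if i = i' then 1 else 0) ?_)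
    rw [← h.mk_monomial]
    simp
  mul := fun e j => by
    refine congrFun (h.uniq (fun i' => c (e + Finsupp.single j 1, i'))
      (fun i' => ∑ i, c (e, i) * c (β i + Finsupp.single j 1, i')) ?_)
    have hm : ∀ e : Fin 3 →₀ ℕ,
        Ideal.Quotient.mk J (MvPowerSeries.monomial (e + Finsupp.single j 1) (1 : k)) =
        Ideal.Quotient.mk J (MvPowerSeries.monomial e 1) *
          Ideal.Quotient.mk J (MvPowerSeries.monomial (Finsupp.single j 1) 1) := fun e => by
      rw [← map_mul, MvPowerSeries.monomial_mul_monomial, one_mul]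
    rw [← h.mk_monomial, hm, h.mk_monomial e, Finset.sum_mul]
    simp only [smul_mul_assoc, ← hm, h.mk_monomial (β _ + _), Finset.smul_sum, Finset.sum_smul,
      mul_smul]
    rw [Finset.sum_comm]

lemma InChart.finrank (h : InChart β J c) :
    FiniteDimensional k (MvPowerSeries (Fin 3) k ⧸ J) ∧
      Module.finrank k (MvPowerSeries (Fin 3) k ⧸ J) = n := by
  let b := Module.Basis.mk h.1 h.2.1.ge
  exact ⟨Module.Finite.of_basis b, by simpa using Module.finrank_eq_card_basis b⟩

lemma InChart.X_pow (h : InChart β J c) (j : Fin 3) (N : ℕ) (hN : n ≤ N) :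
    (MvPowerSeries.X j : MvPowerSeries (Fin 3) k) ^ N ∈ J := by
  obtain ⟨hfin, hn⟩ := h.finrank
  have : IsArtinianRing (MvPowerSeries (Fin 3) k ⧸ J) := IsArtinianRing.of_finite k _
  set x := Ideal.Quotient.mk J (MvPowerSeries.X j) with hx
  have h1 : x ∈ Ideal.jacobson (⊥ : Ideal (MvPowerSeries (Fin 3) k ⧸ J)) := by
    rw [Ideal.mem_jacobson_bot]
    intro y
    obtain ⟨g, rfl⟩ := Ideal.Quotient.mk_surjective y
    have : IsUnit (MvPowerSeries.X j * g + 1) := by
      rw [MvPowerSeries.isUnit_iff_constantCoeff]; simp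
    simpa using this.map (Ideal.Quotient.mk J)
  obtain ⟨m, hm⟩ := IsArtinianRing.isNilpotent_jacobson_bot (R := MvPowerSeries (Fin 3) k ⧸ J)
  have h2 : IsNilpotent x := ⟨m, by
    have := Ideal.pow_mem_pow h1 m
    rwa [hm] at this⟩
  have h3 : IsNilpotent (Algebra.lmul k _ x) := h2.map _
  rw [LinearMap.isNilpotent_iff_charpoly] at h3
  have h4 := LinearMap.aeval_self_charpoly (Algebra.lmul k _ x)
  rw [h3, hn, map_pow, Polynomial.aeval_X, ← map_pow] at h4
  have h5 : x ^ n = 0 := by simpa using LinearMap.congr_fun h4 1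
  rw [← Ideal.Quotient.eq_zero_iff_mem, map_pow, ← hx]
  exact pow_eq_zero_of_le hN h5

lemma InChart.mk_coe (h : InChart β J c) (u : P k) :
    Ideal.Quotient.mk J (u : MvPowerSeries (Fin 3) k) =
      ∑ i, nf (fun e i => c (e, i)) u i • Ideal.Quotient.mk J (MvPowerSeries.monomial (β i) 1) := by
  induction u using MvPolynomial.induction_on' with
  | monomial e a =>
    have : (MvPowerSeries.monomial e a : MvPowerSeries (Fin 3) k) =
        a • MvPowerSeries.monomial e 1 := by rw [← map_smul, smul_eq_mul, mul_one]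
    rw [MvPolynomial.coe_monomial, this, nf_monomial]
    change a • Ideal.Quotient.mk J (MvPowerSeries.monomial e 1) = _
    rw [h.mk_monomial, Finset.smul_sum]
    simp [mul_smul]
  | add p q hp hq =>
    rw [MvPolynomial.coe_add, map_add, hp, hq, map_add, ← Finset.sum_add_distrib]
    simp [add_smul]

lemma InChart.coe_mem (h : InChart β J c) (u : P k) :
    (u : MvPowerSeries (Fin 3) k) ∈ J ↔ nf (fun e i => c (e, i)) u = 0 := by
  rw [← Ideal.Quotient.eq_zero_iff_mem, h.mk_coe]
  constructor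
  · intro e; exact h.uniq _ 0 (by simpa using e)
  · intro e; simp [e]

lemma InChart.vanish (h : InChart β J c) (N : ℕ) (hN : n ≤ N) (e : Fin 3 →₀ ℕ) (j : Fin 3)
    (hj : N < e j) : (fun i => c (e, i)) = 0 := by
  have h1 : (MvPolynomial.monomial e (1 : k) : P k) =
      MvPolynomial.monomial (e - Finsupp.single j N) 1 * MvPolynomial.X j ^ N := by
    rw [MvPolynomial.X_pow_eq_monomial, MvPolynomial.monomial_mul, one_mul, tsub_add_cancel_of_le]
    exact Finsupp.single_le_iff.2 hj.le
  have h2 : ((MvPolynomial.monomial e (1 : k) : P k) : MvPowerSeries (Fin 3) k) ∈ J := by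
    rw [h1, MvPolynomial.coe_mul, MvPolynomial.coe_pow, MvPolynomial.coe_X]
    exact Ideal.mul_mem_left _ _ (h.X_pow j N hN)
  rw [h.coe_mem, nf_monomial, one_smul] at h2
  exact h2

lemma mem_of_box (J : Ideal (MvPowerSeries (Fin 3) k)) (N : ℕ)
    (hJ : ∀ j, (MvPowerSeries.X j : MvPowerSeries (Fin 3) k) ^ N ∈ J)
    (g : MvPowerSeries (Fin 3) k)
    (hg : ∀ e : Fin 3 →₀ ℕ, (∀ j, e j < N) → MvPowerSeries.coeff e g = 0) : g ∈ J := by
  classical
  let g0 : MvPowerSeries (Fin 3) k := fun e => if N ≤ e 0 then MvPowerSeries.coeff e g else 0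
  let g1 : MvPowerSeries (Fin 3) k :=
    fun e => if e 0 < N ∧ N ≤ e 1 then MvPowerSeries.coeff e g else 0
  have c0 : ∀ e, MvPowerSeries.coeff e g0 = if N ≤ e 0 then MvPowerSeries.coeff e g else 0 :=
    fun _ => rfl
  have c1 : ∀ e, MvPowerSeries.coeff e g1 =
      if e 0 < N ∧ N ≤ e 1 then MvPowerSeries.coeff e g else 0 := fun _ => rfl
  have h0 : g0 ∈ J := J.mem_of_dvd (MvPowerSeries.X_pow_dvd_iff.2 fun e he => by
    rw [c0, if_neg (by omega)]) (hJ 0)
  have h1 : g1 ∈ J := J.mem_of_dvd (MvPowerSeries.X_pow_dvd_iff.2 fun e he => by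
    rw [c1, if_neg (by omega)]) (hJ 1)
  have h2 : g - g0 - g1 ∈ J := J.mem_of_dvd (MvPowerSeries.X_pow_dvd_iff.2 fun e he => by
    rw [map_sub, map_sub, c0, c1]
    by_cases a : N ≤ e 0
    · rw [if_pos a, if_neg (by omega)]; simp
    · by_cases b : N ≤ e 1
      · rw [if_neg a, if_pos ⟨by omega, b⟩]; simp
      · rw [if_neg a, if_neg (by omega), hg e]
        · simp
        · intro j; fin_cases j
          · exact not_le.1 a
          · exact not_le.1 b
          · exact he) (hJ 2)
  have := add_mem (add_mem h2 h1) h0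
  simpa using this

lemma InChart.gens (h : InChart β J c) (hJ : IsCI J) (N : ℕ) (hN : n ≤ N) :
    ∃ F : Fin 3 → P k, (∀ l, nf (fun e i => c (e, i)) (F l) = 0) ∧
      ∀ f, nf (fun e i => c (e, i)) f = 0 → f ∈ gen N F := by
  classical
  obtain ⟨f, hf⟩ := hJ
  let N3 : Fin 3 →₀ ℕ := Finsupp.equivFunOnFinite.symm fun _ => N
  refine ⟨fun l => MvPowerSeries.trunc' k N3 (f l), fun l => ?_, fun u hu => ?_⟩
  · rw [← h.coe_mem]
    have h1 : f l ∈ J := hf ▸ Ideal.subset_span ⟨l, rfl⟩
    have h2 : f l - (MvPowerSeries.trunc' k N3 (f l) : MvPowerSeries (Fin 3) k) ∈ J :=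
      mem_of_box J N (fun j => h.X_pow j N hN) _ fun e he => by
        rw [map_sub, MvPolynomial.coeff_coe, MvPowerSeries.coeff_trunc',
          if_pos (show e ≤ N3 from fun j => (he j).le), sub_self]
    simpa using sub_mem h1 h2
  · rw [← h.coe_mem, hf] at hu
    obtain ⟨a, ha⟩ := Ideal.mem_span_range_iff_exists_fun.1 hu
    set v : P k := ∑ l, MvPowerSeries.trunc' k N3 (a l) * MvPowerSeries.trunc' k N3 (f l) with hv
    have h1 : v ∈ gen N fun l => MvPowerSeries.trunc' k N3 (f l) :=
      Ideal.sum_mem _ fun l _ => Ideal.mul_mem_left _ _ (Ideal.subset_span (Or.inl ⟨l, rfl⟩))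
    have h2 : u - v ∈ gen N fun l => MvPowerSeries.trunc' k N3 (f l) := by
      rw [(u - v).as_sum]
      refine Ideal.sum_mem _ fun e he => ?_
      obtain ⟨j, hj⟩ : ∃ j, N < e j := by
        by_contra hc
        push Not at hc
        apply MvPolynomial.mem_support_iff.1 he
        rw [MvPolynomial.coeff_sub, hv, MvPolynomial.coeff_sum, ← MvPolynomial.coeff_coe, ← ha,
          map_sum, sub_eq_zero]
        exact Finset.sum_congr rfl fun l _ =>
          (MvPowerSeries.coeff_trunc'_mul_trunc'_eq_coeff_mul N3 _ _ (fun j => hc j)).symm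
      have : (MvPolynomial.monomial e (MvPolynomial.coeff e (u - v)) : P k) =
          MvPolynomial.C (MvPolynomial.coeff e (u - v)) * MvPolynomial.monomial e 1 := by
        rw [MvPolynomial.C_mul_monomial, mul_one]
      rw [this]
      exact Ideal.mul_mem_left _ _ (monomial_mem_gen N _ e j hj)
    simpa using add_mem h2 h1

end Pool.Agent.H141Z.Gor
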