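import Mathlib
import Pool.Agent.H141Z.Gor.Sys

/-!
Linear functionals of bounded degree: counting, Gram matrices and normal form systems.
-/

set_option autoImplicit false

namespace Pool.Agent.H141Z.Gor

universe u

/-- total degree of an exponent -/
def dg3 (e : Fin 3 →₀ ℕ) : ℕ := e 0 + e 1 + e 2

lemma dg3_add (e e' : Fin 3 →₀ ℕ) : dg3 (e + e') = dg3 e + dg3 e' := by
  simp only [dg3, Finsupp.add_apply]; ring

lemma le_dg3 (e : Fin 3 →₀ ℕ) (j : Fin 3) : e j ≤ dg3 e := by
  fin_cases j <;> simp [dg3] <;> omega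

lemma dg3_eq_zero {e : Fin 3 →₀ ℕ} (h : dg3 e = 0) : e = 0 := by
  ext j; have := le_dg3 e j; simp; omega

/-- exponents of degree at most `s` -/
def Sdeg (s : ℕ) : Finset (Fin 3 →₀ ℕ) :=
  (Finset.range (s + 1)).biUnion fun d => Finset.univ.finsuppAntidiag d

lemma mem_Sdeg (s : ℕ) (e : Fin 3 →₀ ℕ) : e ∈ Sdeg s ↔ dg3 e ≤ s := by
  simp [Sdeg, dg3, Fin.sum_univ_three]

lemma card_Sdeg (s : ℕ) : 6 * (Sdeg s).card = (s + 1) * (s + 2) * (s + 3) := by
  have h1 : ∀ d : ℕ, 2 * ((Finset.univ : Finset (Fin 3)).finsuppAntidiag d).card =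
      (d + 1) * (d + 2) := fun d => by
    rw [Finset.card_finsuppAntidiag_nat_eq_choose, Finset.card_univ, Fintype.card_fin,
      show 3 + d - 1 = d + 2 by omega, Nat.choose_symm_add, Nat.choose_two_right]
    rw [Nat.mul_div_cancel' (Nat.even_mul_pred_self (d + 2)).two_dvd]
    simp [mul_comm]
  rw [Sdeg, Finset.card_biUnion]
  · induction s with
    | zero => have := h1 0; simp at this ⊢
    | succ s ih =>
      rw [Finset.sum_range_succ, mul_add, ih]
      have := h1 (s + 1)
      nlinarith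
  · intro a _ b _ hab
    rw [Function.onFun, Finset.disjoint_left]
    intro e h1 h2
    simp only [Finset.mem_finsuppAntidiag] at h1 h2
    exact hab (h1.1.symm.trans h2.1)

section general

variable {D : Type u} [CommRing D] {n : ℕ}

/-- the Gram matrix -/
noncomputable def gram (Λ : (Fin 3 →₀ ℕ) → D) (β : Fin n → (Fin 3 →₀ ℕ)) : Matrix (Fin n) (Fin n) D :=
  Matrix.of fun i j => Λ (β i + β j)

/-- numerators of the normal form coefficients -/
noncomputable def ct (Λ : (Fin 3 →₀ ℕ) → D) (β : Fin n → (Fin 3 →₀ ℕ)) (e : Fin 3 →₀ ℕ) : Fin n → D :=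
  Matrix.vecMul (fun j => Λ (e + β j)) (gram Λ β).adjugate

/-- Cramer's identities -/
def Cram (Λ : (Fin 3 →₀ ℕ) → D) (β : Fin n → (Fin 3 →₀ ℕ)) : Prop :=
  ∀ e e', (gram Λ β).det * Λ (e + e') = ∑ i, ct Λ β e i * Λ (β i + e')

variable {D' : Type u} [CommRing D'] {Λ : (Fin 3 →₀ ℕ) → D} {β : Fin n → (Fin 3 →₀ ℕ)}

lemma gram_map (g : D →+* D') : gram (fun e => g (Λ e)) β = g.mapMatrix (gram Λ β) := rfl

lemma det_gram_map (g : D →+* D') : (gram (fun e => g (Λ e)) β).det = g (gram Λ β).det := by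
  rw [gram_map, RingHom.map_det]

lemma ct_map (g : D →+* D') (e : Fin 3 →₀ ℕ) (i : Fin n) :
    ct (fun e => g (Λ e)) β e i = g (ct Λ β e i) := by
  rw [ct, gram_map, ← RingHom.map_adjugate]
  simp [ct, Matrix.vecMul, dotProduct]

lemma Cram.map (h : Cram Λ β) (g : D →+* D') : Cram (fun e => g (Λ e)) β := fun e e' => by
  simp only [det_gram_map, ct_map, ← map_mul, ← map_sum, h e e']

lemma Cram.of_map (g : D →+* D') (hg : Function.Injective g) (h : Cram (fun e => g (Λ e)) β) :
    Cram Λ β := fun e e' => by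
  apply hg
  have := h e e'
  simpa only [det_gram_map, ct_map, ← map_mul, ← map_sum] using this

lemma Cram.rel (h : Cram Λ β) (u : D) (hu : u * (gram Λ β).det = 1) (e e' : Fin 3 →₀ ℕ) :
    Λ (e + e') = ∑ i, u * ct Λ β e i * Λ (β i + e') := by
  simp only [mul_assoc]
  rw [← Finset.mul_sum, ← h e e', ← mul_assoc, hu, one_mul]

lemma gram_uniq (u : D) (hu : u * (gram Λ β).det = 1) (w w' : Fin n → D)
    (h : ∀ j, ∑ i, w i * Λ (β i + β j) = ∑ i, w' i * Λ (β i + β j)) : w = w' := by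
  have h1 : Matrix.vecMul w (gram Λ β) = Matrix.vecMul w' (gram Λ β) := by
    funext j; simpa [Matrix.vecMul, dotProduct, gram] using h j
  have h2 := congrArg (fun v => u • Matrix.vecMul v (gram Λ β).adjugate) h1
  simpa [Matrix.vecMul_vecMul, Matrix.mul_adjugate, Matrix.vecMul_smul, smul_smul, hu] using h2

lemma Cram.sys (h : Cram Λ β) (u : D) (hu : u * (gram Λ β).det = 1) :
    Sys β fun e i => u * ct Λ β e i where
  base := fun i => by
    refine congrFun (gram_uniq u hu (fun i' => u * ct Λ β (β i) i')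
      (fun i' => if i = i' then 1 else 0) fun j => ?_)
    rw [← h.rel u hu]; simp
  mul := fun e j => by
    refine congrFun (gram_uniq u hu (fun i' => u * ct Λ β (e + Finsupp.single j 1) i')
      (fun i' => ∑ i, u * ct Λ β e i * (u * ct Λ β (β i + Finsupp.single j 1) i')) fun l => ?_)
    rw [← h.rel u hu, add_assoc, h.rel u hu]
    simp only [Finset.sum_mul]
    rw [Finset.sum_comm]
    refine Finset.sum_congr rfl fun i _ => ?_
    rw [← add_assoc, h.rel u hu, Finset.mul_sum]
    exact Finset.sum_congr rfl fun i' _ => by ring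

lemma ct_eq_zero (T : ℕ) (hΛ : ∀ e, T < dg3 e → Λ e = 0) (e : Fin 3 →₀ ℕ) (he : T < dg3 e) :
    ct Λ β e = 0 := by
  have : (fun j => Λ (e + β j)) = 0 := funext fun j => hΛ _ (by rw [dg3_add]; omega)
  rw [ct, this, Matrix.zero_vecMul]

end general

theorem exists_good_field {K : Type u} [Field K] (t : ℕ) (Λ : (Fin 3 →₀ ℕ) → K)
    (hΛ : ∀ e, 2 * t + 2 < dg3 e → Λ e = 0) :
    ∃ (n : ℕ) (β : Fin n → (Fin 3 →₀ ℕ)), Cram Λ β ∧ (gram Λ β).det ≠ 0 ∧
      n ≤ (Sdeg (t + 1)).card + (Sdeg t).card := by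
  classical
  let r : (Fin 3 →₀ ℕ) → (Fin 3 →₀ ℕ) → K := fun e e' => Λ (e + e')
  obtain ⟨κ, a, -, hsp, hli⟩ := exists_linearIndependent' K r
  let w : Finset ((Fin 3 →₀ ℕ) → K) :=
    (Sdeg (t + 1)).image r ∪ (Sdeg t).image fun e => Pi.single e 1
  have hw : Set.range (r ∘ a) ⊆ (Submodule.span K (w : Set ((Fin 3 →₀ ℕ) → K)) : Set _) := by
    rintro _ ⟨x, rfl⟩
    by_cases hx : a x ∈ Sdeg (t + 1)
    · exact Submodule.subset_span (by
        simp only [w, Finset.coe_union, Finset.coe_image]; exact Or.inl ⟨_, hx, rfl⟩)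
    · have : (r ∘ a) x = ∑ e ∈ Sdeg t, Λ (a x + e) • Pi.single e (1 : K) := by
        funext e'
        simp only [Finset.sum_apply, Pi.smul_apply, Pi.single_apply, smul_eq_mul, mul_ite, mul_one,
          mul_zero, Finset.sum_ite_eq, Function.comp, r]
        split_ifs with h
        · rfl
        · rw [mem_Sdeg] at hx h
          exact hΛ _ (by rw [dg3_add]; omega)
      rw [this]
      exact Submodule.sum_mem _ fun e he => Submodule.smul_mem _ _ (Submodule.subset_span (by
        simp only [w, Finset.coe_union, Finset.coe_image]; exact Or.inr ⟨_, he, rfl⟩))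
  have : Finite κ := hli.finite_of_le_span_finite _ (w : Set _) hw
  let := Fintype.ofFinite κ
  have hc := linearIndependent_le_span_aux' _ hli (w : Set _) hw
  let q := (Fintype.equivFin κ).symm
  let β : Fin (Fintype.card κ) → (Fin 3 →₀ ℕ) := a ∘ q
  have hli' : LinearIndependent K (r ∘ β) := hli.comp q q.injective
  have hrow : ∀ e, ∃ x : Fin (Fintype.card κ) → K, ∀ e', Λ (e + e') = ∑ i, x i * Λ (β i + e') := by
    intro e
    have h1 : r e ∈ Submodule.span K (Set.range (r ∘ β)) := by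
      have : Set.range (r ∘ β) = Set.range (r ∘ a) := q.surjective.range_comp (r ∘ a)
      rw [this, hsp]; exact Submodule.subset_span ⟨e, rfl⟩
    obtain ⟨x, hx⟩ := (Submodule.mem_span_range_iff_exists_fun K).1 h1
    exact ⟨x, fun e' => by simpa [r] using (congrFun hx e').symm⟩
  refine ⟨Fintype.card κ, β, fun e e' => ?_, ?_, hc.trans ?_⟩
  · obtain ⟨x, hx⟩ := hrow e
    have h1 : (fun j => Λ (e + β j)) = Matrix.vecMul x (gram Λ β) := by
      funext j; simpa [Matrix.vecMul, dotProduct, gram] using hx (β j)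
    have h2 : ct Λ β e = (gram Λ β).det • x := by
      rw [ct, h1, Matrix.vecMul_vecMul, Matrix.mul_adjugate, Matrix.vecMul_smul, Matrix.vecMul_one]
    rw [h2, hx, Finset.mul_sum]
    simp [mul_assoc]
  · rw [Ne, ← Matrix.exists_vecMul_eq_zero_iff]
    rintro ⟨v, hv0, hv⟩
    apply hv0
    have h1 : ∀ j, ∑ i, v i * Λ (β i + β j) = 0 := fun j => by
      simpa [Matrix.vecMul, dotProduct, gram] using congrFun hv j
    funext i
    refine Fintype.linearIndependent_iff.1 hli' v ?_ i
    funext e'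
    obtain ⟨x, hx⟩ := hrow e'
    simp only [Finset.sum_apply, Pi.smul_apply, Function.comp, r, smul_eq_mul, Pi.zero_apply]
    have h2 : ∀ i, v i * Λ (β i + e') = ∑ j, x j * (v i * Λ (β i + β j)) := fun i => by
      rw [add_comm, hx, Finset.mul_sum]
      exact Finset.sum_congr rfl fun j _ => by rw [add_comm (β j)]; ring
    change ∑ i, v i * Λ (β i + e') = 0
    simp only [h2]
    rw [Finset.sum_comm]
    simp only [← Finset.mul_sum, h1, mul_zero, Finset.sum_const_zero]
  · simp only [Finset.coe_sort_coe, Fintype.card_coe]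
    exact (Finset.card_union_le _ _).trans (add_le_add Finset.card_image_le Finset.card_image_le)

theorem exists_good {Q : Type u} [CommRing Q] [IsDomain Q] (t : ℕ) (Λ : (Fin 3 →₀ ℕ) → Q)
    (hΛ : ∀ e, 2 * t + 2 < dg3 e → Λ e = 0) (h0 : Λ 0 ≠ 0) :
    ∃ (n : ℕ) (β : Fin n → (Fin 3 →₀ ℕ)), Cram Λ β ∧ (gram Λ β).det ≠ 0 ∧ 0 < n ∧
      n ≤ (Sdeg (t + 1)).card + (Sdeg t).card := by
  obtain ⟨n, β, h1, h2, h3⟩ := exists_good_field t
    (fun e => algebraMap Q (FractionRing Q) (Λ e)) fun e he => by simp [hΛ e he]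
  have h4 : Cram Λ β := Cram.of_map _ (IsFractionRing.injective Q (FractionRing Q)) h1
  refine ⟨n, β, h4, fun h => h2 (by rw [det_gram_map, h, map_zero]), ?_, h3⟩
  rcases n with _ | n
  · have := h4 0 0
    simp [h0] at this
  · omega

end Pool.Agent.H141Z.Gor
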