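import Mathlib
import Pool.Agent.H141Z.Gor.Chart
import Pool.Agent.H141Z.Gor.Family

/-!
The Gorenstein ideal attached to a linear functional of bounded degree.
-/

set_option autoImplicit false

namespace Pool.Agent.H141Z.Gor

universe u

open MvPowerSeries

variable {k : Type u} [Field k]

/-- power series of order at least `s` -/
def Ord (s : ℕ) (f : MvPowerSeries (Fin 3) k) : Prop := ∀ e, dg3 e < s → coeff e f = 0

lemma Ord.mul_right {s : ℕ} {f : MvPowerSeries (Fin 3) k} (h : Ord s f)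
    (g : MvPowerSeries (Fin 3) k) : Ord s (f * g) := fun e he => by
  classical
  rw [coeff_mul]
  refine Finset.sum_eq_zero fun p hp => ?_
  have := congrArg dg3 (Finset.HasAntidiagonal.mem_antidiagonal.1 hp)
  rw [dg3_add] at this
  rw [h p.1 (by omega), zero_mul]

lemma Ord.mul_max {s : ℕ} {f : MvPowerSeries (Fin 3) k} (h : Ord s f)
    {g : MvPowerSeries (Fin 3) k} (hg : g ∈ IsLocalRing.maximalIdeal (MvPowerSeries (Fin 3) k)) :
    Ord (s + 1) (f * g) := fun e he => by
  classical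
  have hg0 : coeff 0 g = 0 := by
    rw [IsLocalRing.mem_maximalIdeal, mem_nonunits_iff, isUnit_iff_constantCoeff] at hg
    simpa using hg
  rw [coeff_mul]
  refine Finset.sum_eq_zero fun p hp => ?_
  have := congrArg dg3 (Finset.HasAntidiagonal.mem_antidiagonal.1 hp)
  rw [dg3_add] at this
  by_cases h2 : dg3 p.2 = 0
  · rw [dg3_eq_zero h2, hg0, mul_zero]
  · rw [h p.1 (by omega), zero_mul]

lemma ord_of_mem_pow (s : ℕ) : ∀ f ∈ IsLocalRing.maximalIdeal (MvPowerSeries (Fin 3) k) ^ s,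
    Ord s f := by
  induction s with
  | zero => intro f _ e he; omega
  | succ s ih =>
    intro f hf
    rw [pow_succ] at hf
    refine Submodule.mul_induction_on hf (fun a ha b hb => (ih a ha).mul_max hb) ?_
    intro x y hx hy e he
    rw [map_add, hx e he, hy e he, add_zero]

lemma ord_sub (T : ℕ) (f : MvPowerSeries (Fin 3) k) :
    Ord (T + 1) (f - ∑ e ∈ Sdeg T, coeff e f • monomial e (1 : k)) := fun e he => by
  classical
  have : e ∈ Sdeg T := (mem_Sdeg _ _).2 (by omega)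
  simp [coeff_monomial, this]

/-- the functional -/
noncomputable def Lf (T : ℕ) (Λ : (Fin 3 →₀ ℕ) → k) : MvPowerSeries (Fin 3) k →ₗ[k] k :=
  ∑ e ∈ Sdeg T, Λ e • coeff e

lemma Lf_ord {T : ℕ} (Λ : (Fin 3 →₀ ℕ) → k) {f : MvPowerSeries (Fin 3) k} (h : Ord (T + 1) f) :
    Lf T Λ f = 0 := by
  rw [Lf, LinearMap.sum_apply]
  refine Finset.sum_eq_zero fun e he => ?_
  rw [LinearMap.smul_apply, h e (by have := (mem_Sdeg _ _).1 he; omega), smul_zero]

lemma Lf_monomial {T : ℕ} {Λ : (Fin 3 →₀ ℕ) → k} (hΛ : ∀ e, T < dg3 e → Λ e = 0)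
    (e : Fin 3 →₀ ℕ) : Lf T Λ (monomial e 1) = Λ e := by
  classical
  rw [Lf, LinearMap.sum_apply]
  simp only [LinearMap.smul_apply, coeff_monomial, smul_eq_mul, mul_ite, mul_one, mul_zero,
    Finset.sum_ite_eq']
  split_ifs with h
  · rfl
  · rw [mem_Sdeg] at h; exact (hΛ e (by omega)).symm

/-- the annihilator ideal of the functional -/
def annI (T : ℕ) (Λ : (Fin 3 →₀ ℕ) → k) : Ideal (MvPowerSeries (Fin 3) k) where
  carrier := {f | ∀ g, Lf T Λ (f * g) = 0}
  zero_mem' := fun g => by rw [zero_mul, map_zero]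
  add_mem' := fun ha hb g => by rw [add_mul, map_add, ha g, hb g, add_zero]
  smul_mem' := fun r f hf g => by rw [smul_eq_mul, mul_comm r, mul_assoc]; exact hf _

lemma mem_annI_of_ord {T : ℕ} (Λ : (Fin 3 →₀ ℕ) → k) {f : MvPowerSeries (Fin 3) k}
    (h : Ord (T + 1) f) : f ∈ annI T Λ := fun g => Lf_ord Λ (h.mul_right g)

lemma mem_annI {T : ℕ} (Λ : (Fin 3 →₀ ℕ) → k) {f : MvPowerSeries (Fin 3) k}
    (h : ∀ e, Lf T Λ (f * monomial e 1) = 0) : f ∈ annI T Λ := fun g => by
  have h1 := Lf_ord Λ ((ord_sub T g).mul_right f)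
  rw [sub_mul, map_sub, sub_eq_zero, mul_comm g] at h1
  rw [h1, Finset.sum_mul, map_sum]
  refine Finset.sum_eq_zero fun e _ => ?_
  rw [smul_mul_assoc, map_smul, mul_comm, h, smul_zero]

variable {n : ℕ} {β : Fin n → (Fin 3 →₀ ℕ)} {T : ℕ} {Λ : (Fin 3 →₀ ℕ) → k}

theorem annI_chart (hΛ : ∀ e, T < dg3 e → Λ e = 0) (h : Cram Λ β) (u : k)
    (hu : u * (gram Λ β).det = 1) : InChart β (annI T Λ) fun x => u * ct Λ β x.1 x.2 := by
  have h3 : ∀ e, (monomial e 1 : MvPowerSeries (Fin 3) k) -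
      ∑ i, (u * ct Λ β e i) • monomial (β i) 1 ∈ annI T Λ := fun e => mem_annI Λ fun e' => by
    simp only [sub_mul, Finset.sum_mul, smul_mul_assoc, monomial_mul_monomial, mul_one, map_sub,
      map_sum, map_smul, Lf_monomial hΛ, smul_eq_mul]
    rw [h.rel u hu, sub_self]
  refine ⟨?_, ?_, h3⟩
  · rw [Fintype.linearIndependent_iff]
    intro w hw
    have h1 : ∑ i, w i • (monomial (β i) 1 : MvPowerSeries (Fin 3) k) ∈ annI T Λ := by
      rw [← Ideal.Quotient.eq_zero_iff_mem, map_sum]; exact hw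
    refine congrFun (gram_uniq u hu w 0 fun j => ?_)
    have := h1 (monomial (β j) 1)
    simp only [Finset.sum_mul, smul_mul_assoc, monomial_mul_monomial, mul_one,
      map_sum, map_smul, Lf_monomial hΛ, smul_eq_mul] at this
    simpa using this
  · rw [eq_top_iff]
    rintro x -
    obtain ⟨f, rfl⟩ := Ideal.Quotient.mk_surjective x
    rw [Ideal.Quotient.eq.2 (mem_annI_of_ord Λ (ord_sub T f)), map_sum]
    refine Submodule.sum_mem _ fun e _ => ?_
    change coeff e f • Ideal.Quotient.mk (annI T Λ) (monomial e 1) ∈ _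
    refine Submodule.smul_mem _ _ ?_
    rw [Ideal.Quotient.eq.2 (h3 e), map_sum]
    refine Submodule.sum_mem _ fun i _ => ?_
    change (u * ct Λ β e i) • Ideal.Quotient.mk (annI T Λ) (monomial (β i) 1) ∈ _
    exact Submodule.smul_mem _ _ (Submodule.subset_span ⟨i, rfl⟩)

theorem annI_gor (hne : annI T Λ ≠ ⊤) : IsArtinGorenstein (annI T Λ) := by
  classical
  have hN : ∃ N : ℕ, IsLocalRing.maximalIdeal (MvPowerSeries (Fin 3) k) ^ N ≤ annI T Λ :=
    ⟨T + 1, fun f hf => mem_annI_of_ord Λ (ord_of_mem_pow _ f hf)⟩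
  refine ⟨hN, ?_⟩
  let L : (MvPowerSeries (Fin 3) k ⧸ annI T Λ) →ₗ[k] k :=
    ((annI T Λ).restrictScalars k).liftQ (Lf T Λ) (fun f hf => by
      have := hf 1
      rwa [mul_one] at this) ∘ₗ (Submodule.Quotient.restrictScalarsEquiv k (annI T Λ)).symm.toLinearMap
  have hL : ∀ f, L (Ideal.Quotient.mk _ f) = Lf T Λ f := fun _ => rfl
  have hinj : Function.Injective (L ∘ₗ (socle (annI T Λ)).subtype) := by
    rw [injective_iff_map_eq_zero]
    rintro ⟨a, ha⟩ h0
    obtain ⟨f, rfl⟩ := Ideal.Quotient.mk_surjective a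
    have h1 : Lf T Λ f = 0 := h0
    refine Subtype.ext (Ideal.Quotient.eq_zero_iff_mem.2 fun g => ?_)
    have h2 : g - C (constantCoeff g) ∈ IsLocalRing.maximalIdeal (MvPowerSeries (Fin 3) k) := by
      rw [IsLocalRing.mem_maximalIdeal, mem_nonunits_iff, isUnit_iff_constantCoeff]; simp
    have h3 := ha _ h2
    rw [← map_mul, Ideal.Quotient.eq_zero_iff_mem] at h3
    have h4 := h3 1
    rw [mul_one, sub_mul, map_sub, ← smul_eq_C_mul, map_smul, h1, smul_zero, sub_zero] at h4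
    rwa [mul_comm]
  have hfin : FiniteDimensional k (socle (annI T Λ)) := FiniteDimensional.of_injective _ hinj
  have hle := LinearMap.finrank_le_finrank_of_injective hinj
  rw [Module.finrank_self] at hle
  have hnt : Nontrivial (socle (annI T Λ)) := by
    have h0 : Nat.find hN ≠ 0 := by
      intro h0
      have := Nat.find_spec hN
      rw [h0, pow_zero, Ideal.one_eq_top, top_le_iff] at this
      exact hne this
    obtain ⟨m, hm⟩ := Nat.exists_eq_succ_of_ne_zero h0
    have h1 := Nat.find_min hN (m := m) (by omega)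
    obtain ⟨f, hf, hf2⟩ := SetLike.not_le_iff_exists.1 h1
    refine ⟨⟨⟨Ideal.Quotient.mk _ f, fun r hr => ?_⟩, 0, fun h => hf2 ?_⟩⟩
    · rw [← map_mul, Ideal.Quotient.eq_zero_iff_mem]
      apply Nat.find_spec hN
      rw [hm, pow_succ']
      exact Ideal.mul_mem_mul hr hf
    · exact Ideal.Quotient.eq_zero_iff_mem.1 (congrArg Subtype.val h)
  have := Module.finrank_pos (R := k) (M := socle (annI T Λ))
  omega

theorem point_closure
    (H : ∀ I : Ideal (MvPowerSeries (Fin 3) k), IsArtinGorenstein I →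
      InClosureCI (Module.finrank k (MvPowerSeries (Fin 3) k ⧸ I)) I)
    (hΛ : ∀ e, T < dg3 e → Λ e = 0) (h : Cram Λ β) (hn : 0 < n) (u : k)
    (hu : u * (gram Λ β).det = 1) (p : MvPolynomial ((Fin 3 →₀ ℕ) × Fin n) k)
    (hp : ∀ J c, IsCI J → InChart β J c → MvPolynomial.eval c p = 0) :
    MvPolynomial.eval (fun x => u * ct Λ β x.1 x.2) p = 0 := by
  have hc := annI_chart hΛ h u hu
  have hne : annI T Λ ≠ ⊤ := by
    intro ht
    have h1 := hc.finrank.2
    have : Subsingleton (MvPowerSeries (Fin 3) k ⧸ annI T Λ) :=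
      Ideal.Quotient.subsingleton_iff.2 ht
    rw [Module.finrank_zero_of_subsingleton] at h1
    omega
  have h2 := H _ (annI_gor hne)
  rw [hc.finrank.2] at h2
  exact h2 β _ hc p hp

end Pool.Agent.H141Z.Gor
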