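import Mathlib
import Pool.Agent.H141Z.Gor.Point

/-!
The dimension count.
-/

set_option autoImplicit false

namespace Pool.Agent.H141Z.Gor

universe u

open MvPolynomial

theorem loc_zero {k : Type u} [Field k] [Infinite k] {σ : Type} (h : MvPolynomial σ k) (h0 : h ≠ 0)
    (z : Localization.Away h)
    (hz : ∀ (x : σ → k) (hx : IsUnit (eval x h)), IsLocalization.Away.lift h hx z = 0) : z = 0 := by
  obtain ⟨⟨a, s⟩, rfl⟩ := IsLocalization.mk'_surjective (Submonoid.powers h) z
  have h1 : a * h = 0 := by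
    refine MvPolynomial.funext fun x => ?_
    rw [map_mul, map_zero]
    by_cases hx : eval x h = 0
    · rw [hx, mul_zero]
    · have h2 := hz x (Ne.isUnit hx)
      have h3 := congrArg (IsLocalization.Away.lift h (Ne.isUnit hx) : Localization.Away h →+* k)
        (IsLocalization.mk'_spec (Localization.Away h) a s)
      rw [map_mul, h2, zero_mul, IsLocalization.Away.lift_eq] at h3
      rw [← h3, zero_mul]
  have h2 : a = 0 := (mul_eq_zero.1 h1).resolve_right h0
  simp [h2]

theorem exists_comp {U : Type u} [CommRing U] [IsNoetherianRing U] {X : Type u}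
    (m : X → Ideal U) (hm : ∀ x, (m x).IsPrime) (Pr : Ideal U) [Pr.IsPrime] (h : ⨅ x, m x ≤ Pr) :
    ∃ p : Ideal U, p.IsPrime ∧ ⨅ x, m x ≤ p ∧ p ≤ Pr ∧ ∃ x, p ≤ m x := by
  classical
  obtain ⟨p, hp, hp2⟩ := Ideal.exists_minimalPrimes_le h
  refine ⟨p, hp.1.1, hp.1.2, hp2, ?_⟩
  by_contra hc
  push Not at hc
  have hfin := Ideal.finite_minimalPrimes_of_isNoetherianRing U (⨅ x, m x)
  have h1 : (hfin.toFinset.erase p).inf id ≤ p := by
    refine le_trans (le_iInf fun x => ?_) hp.1.2
    have := hm x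
    obtain ⟨q, hq, hq2⟩ := Ideal.exists_minimalPrimes_le (iInf_le m x)
    refine le_trans (Finset.inf_le (f := id) (b := q) ?_) hq2
    rw [Finset.mem_erase, Set.Finite.mem_toFinset]
    exact ⟨fun e => hc x (e ▸ hq2), hq⟩
  obtain ⟨q, hq, hq2⟩ := hp.1.1.inf_le'.1 h1
  rw [Finset.mem_erase, Set.Finite.mem_toFinset] at hq
  exact hq.1 (le_antisymm hq2 (hp.2 hq.2.1 hq2))

theorem ci_bound {k : Type u} [Field k] [PerfectField k] {n : ℕ} (β : Fin n → (Fin 3 →₀ ℕ))
    (N : ℕ) (hN : n ≤ N) {D0 : Type u} [CommRing D0] [IsDomain D0] [Algebra k D0]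
    (c0 : (Fin 3 →₀ ℕ) × Fin n → D0)
    (h0 : ∀ p : MvPolynomial ((Fin 3 →₀ ℕ) × Fin n) k,
      (∀ J c, IsCI J → InChart β J c → eval c p = 0) → aeval c0 p = 0) (z : Fin n → D0) :
    ∃ (A : Subalgebra k D0) (d : ℕ), Algebra.trdeg k A ≤ d + n ∧ 81 * d ≤ 242 * n ∧
      (∀ e i, (∀ j, e j ≤ N) → c0 (e, i) ∈ A) ∧ ∀ i, z i ∈ A := by
  classical
  let N3 : Fin 3 →₀ ℕ := Finsupp.equivFunOnFinite.symm fun _ => N
  let τ := (Finset.Iic N3) × Fin n
  let ι : τ → (Fin 3 →₀ ℕ) × Fin n := fun x => (x.1.1, x.2)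
  let U := MvPolynomial τ k
  let cU : (Fin 3 →₀ ℕ) → Fin n → U := fun e i =>
    if he : e ∈ Finset.Iic N3 then X (⟨e, he⟩, i) else 0
  let Pt := {x : Ideal (MvPowerSeries (Fin 3) k) × ((Fin 3 →₀ ℕ) × Fin n → k) //
    IsCI x.1 ∧ InChart β x.1 x.2}
  let ev : Pt → (U →ₐ[k] k) := fun x => aeval (x.1.2 ∘ ι)
  have hev : ∀ x e i, ev x (cU e i) = x.1.2 (e, i) := fun x e i => by
    simp only [cU]
    split_ifs with he
    · exact aeval_X _ _
    · rw [map_zero]
      obtain ⟨j, hj⟩ : ∃ j, N < e j := by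
        by_contra hc
        push Not at hc
        exact he (Finset.mem_Iic.2 fun j => hc j)
      exact (congrFun (x.2.2.vanish N hN e j hj) i).symm
  let ψ : U →ₐ[k] D0 := aeval (c0 ∘ ι)
  have hprime : (RingHom.ker ψ).IsPrime := RingHom.ker_isPrime _
  obtain ⟨p, hp, hp1, hp2, x, hx⟩ := exists_comp (fun x : Pt => RingHom.ker (ev x))
    (fun x => RingHom.ker_isPrime _) (RingHom.ker ψ) (fun q hq => by
      rw [Ideal.mem_iInf] at hq
      have := h0 (rename ι q) fun J c hJ hc => by
        rw [eval_rename]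
        exact hq ⟨(J, c), hJ, hc⟩
      rwa [aeval_rename] at this)
  let D := U ⧸ p
  let cD : (Fin 3 →₀ ℕ) → Fin n → D := fun e i => Ideal.Quotient.mk p (cU e i)
  have hsys : Sys β cD := by
    constructor
    · intro i i'
      have : (if i = i' then 1 else 0 : D) = Ideal.Quotient.mk p (if i = i' then 1 else 0) := by
        split_ifs <;> simp
      rw [this]
      refine Ideal.Quotient.eq.2 (hp1 (Ideal.mem_iInf.2 fun y => ?_))
      rw [RingHom.mem_ker, map_sub, hev, y.2.2.sys.base]
      split_ifs <;> simp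
    · intro e j i'
      simp only [cD, ← map_mul, ← map_sum]
      refine Ideal.Quotient.eq.2 (hp1 (Ideal.mem_iInf.2 fun y => ?_))
      rw [RingHom.mem_ker, map_sub, hev, y.2.2.sys.mul]
      simp only [map_sum, map_mul, hev, sub_self]
  let evD : D →ₐ[k] k := Ideal.Quotient.liftₐ p (ev x) fun a ha => hx ha
  have hevD : (fun e i => evD (cD e i)) = fun e i => x.1.2 (e, i) := by
    funext e i; exact hev x e i
  obtain ⟨F, hF, hF2⟩ := x.2.2.gens x.2.1 N hN
  have hadj : Algebra.adjoin k (Set.range fun y : (Fin 3 →₀ ℕ) × Fin n => cD y.1 y.2) = ⊤ := by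
    rw [eq_top_iff]
    rintro a -
    obtain ⟨q, rfl⟩ := Ideal.Quotient.mk_surjective a
    induction q using MvPolynomial.induction_on with
    | C a => exact Subalgebra.algebraMap_mem _ a
    | add p q hp hq => rw [map_add]; exact add_mem hp hq
    | mul_X p j hp =>
      rw [map_mul]
      refine mul_mem hp (Algebra.subset_adjoin ⟨ι j, ?_⟩)
      simp only [cD, cU, ι, j.1.2, dif_pos]
      rfl
  obtain ⟨d, hd, hd2⟩ := domain_bound k D evD hsys N (fun e j hj => by
      funext i
      have : e ∉ Finset.Iic N3 := fun he => absurd (Finset.mem_Iic.1 he j) (not_le.2 hj)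
      simp only [cD, cU, this, dif_neg, not_false_eq_true, map_zero, Pi.zero_apply])
    hadj F (hevD ▸ hF) (hevD ▸ hF2)
  let φ : D →ₐ[k] D0 := Ideal.Quotient.liftₐ p ψ fun a ha => hp2 ha
  let ω : MvPolynomial (Fin n) D →ₐ[k] D0 := aevalTower φ z
  refine ⟨ω.range, d, ?_, hd2, fun e i he => ⟨C (cD e i), ?_⟩, fun i => ⟨X i, ?_⟩⟩
  · refine (trdeg_le_of_surjective ω.rangeRestrict ω.rangeRestrict_surjective).trans ?_
    rw [← trdeg_add_eq k D, MvPolynomial.trdeg_of_isDomain]
    simp only [Cardinal.mk_fintype, Fintype.card_fin, Cardinal.lift_natCast]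
    exact add_le_add hd le_rfl
  · change aevalTower φ z (C (cD e i)) = _
    rw [aevalTower_C]
    change ψ (cU e i) = _
    have : e ∈ Finset.Iic N3 := Finset.mem_Iic.2 fun j => he j
    simp only [cU, this, dif_pos]
    exact aeval_X _ _
  · exact aevalTower_X _ _ _

theorem count_bound (k : Type u) [Field k] [IsAlgClosed k]
    (H : ∀ I : Ideal (MvPowerSeries (Fin 3) k), IsArtinGorenstein I →
      InClosureCI (Module.finrank k (MvPowerSeries (Fin 3) k ⧸ I)) I) (t : ℕ) :
    81 * (Sdeg (2 * t + 2)).card ≤ 323 * ((Sdeg (t + 1)).card + (Sdeg t).card) := by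
  classical
  let S := Sdeg (2 * t + 2)
  let Q := MvPolynomial S k
  let Λ : (Fin 3 →₀ ℕ) → Q := fun e => if he : e ∈ S then X ⟨e, he⟩ else 0
  have hΛ : ∀ e, 2 * t + 2 < dg3 e → Λ e = 0 := fun e he => by
    have : e ∉ S := fun h => by have := (mem_Sdeg _ _).1 h; omega
    simp only [Λ, this, dif_neg, not_false_eq_true]
  have hΛX : ∀ e : S, Λ e = X e := fun e => by simp only [Λ, e.2, dif_pos]
  obtain ⟨n, β, hcr, hdet, hn, hn2⟩ := exists_good t Λ hΛ (by
    have h0 : (0 : Fin 3 →₀ ℕ) ∈ S := (mem_Sdeg _ _).2 (by simp [dg3])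
    rw [hΛX ⟨0, h0⟩]
    exact X_ne_zero _)
  let D0 := Localization.Away (gram Λ β).det
  have : IsDomain D0 := Localization.Away.isDomain hdet
  let g : Q →+* D0 := algebraMap Q D0
  let u : D0 := IsLocalization.Away.invSelf (gram Λ β).det
  have hu0 : u * g (gram Λ β).det = 1 := by
    rw [mul_comm]; exact IsLocalization.Away.mul_invSelf _
  have hu : u * (gram (fun e => g (Λ e)) β).det = 1 := by rw [det_gram_map]; exact hu0
  obtain ⟨A, d, hA, hd, hA1, hA2⟩ := ci_bound (k := k) β (n + (2 * t + 2)) (by omega)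
    (fun x => u * ct (fun e => g (Λ e)) β x.1 x.2) (fun p hp => by
      refine loc_zero _ hdet _ fun x hx => ?_
      let l : D0 →+* k := IsLocalization.Away.lift (gram Λ β).det hx
      have hl : ∀ a, l (g a) = eval x a := fun a => IsLocalization.Away.lift_eq _ hx a
      have h1 := point_closure H (T := 2 * t + 2) (Λ := fun e => l (g (Λ e)))
        (fun e he => by rw [hΛ e he, map_zero, map_zero]) ((hcr.map g).map l) hn (l u)
        (by rw [det_gram_map (Λ := fun e => g (Λ e)) l, ← map_mul, hu, map_one]) p hp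
      change l _ = 0
      rw [map_aeval, ← h1]
      have h2 : l.comp (algebraMap k D0) = RingHom.id k := by
        ext a
        change l (g (C a)) = a
        rw [hl, eval_C]
      rw [h2]
      simp only [map_mul, ct_map (Λ := fun e => g (Λ e)) l]
      rfl) (fun i => g (Λ (β i)))
  have hQ : ∀ q : Q, g q ∈ A := by
    intro q
    induction q using MvPolynomial.induction_on with
    | C a => exact A.algebraMap_mem a
    | add p q hp hq => rw [map_add]; exact add_mem hp hq
    | mul_X p e hp =>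
      rw [map_mul]
      refine mul_mem hp ?_
      have h1 := (hcr.map g).rel u hu e 0
      simp only [add_zero] at h1
      rw [← hΛX, h1]
      refine sum_mem fun i _ => mul_mem (hA1 e i fun j => ?_) (hA2 i)
      have := (mem_Sdeg _ _).1 e.2
      have := le_dg3 e j
      omega
  have hinj : Function.Injective g := IsLocalization.injective D0
    (powers_le_nonZeroDivisors_of_noZeroDivisors hdet)
  have h2 := (trdeg_le_of_injective ((IsScalarTower.toAlgHom k Q D0).codRestrict A hQ)
    (fun a b hab => hinj (congrArg Subtype.val hab))).trans hA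
  rw [MvPolynomial.trdeg_of_isDomain] at h2
  simp only [Cardinal.mk_fintype, Fintype.card_coe, Cardinal.lift_natCast] at h2
  have h3 : S.card ≤ d + n := by exact_mod_cast h2
  change 81 * S.card ≤ _
  omega

theorem exists_not_closure (k : Type u) [Field k] [IsAlgClosed k] :
    ∃ I : Ideal (MvPowerSeries (Fin 3) k), IsArtinGorenstein I ∧
      ¬ InClosureCI (Module.finrank k (MvPowerSeries (Fin 3) k ⧸ I)) I := by
  by_contra H
  push Not at H
  obtain ⟨t, ht⟩ : ∃ t : ℕ, t = 484 := ⟨_, rfl⟩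
  have h1 := count_bound k H t
  have h2 := card_Sdeg (2 * t + 2)
  have h3 := card_Sdeg (t + 1)
  have h4 := card_Sdeg t
  generalize (Sdeg (2 * t + 2)).card = a at *
  generalize (Sdeg (t + 1)).card = b at *
  generalize (Sdeg t).card = c at *
  subst ht
  omega

end Pool.Agent.H141Z.Gor
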